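import Pool.Agent.H76.ND.Ac

/-!
# Absolute continuity from the energies, with the bound for the density

The proof of `ac_main` of `ND/Ac`, with the bound `∫ g ² ≤ C` added.
-/

set_option autoImplicit false

namespace Pool.Agent.H76.NE

open MeasureTheory Metric Set Filter Topology Pool.Agent.H76.ND

variable {ν : Measure ℝ} [IsProbabilityMeasure ν]

theorem ac_bound {C : ℝ} (hC : 0 ≤ C) (h : ∀ r : ℝ, 0 < r → r ≤ 1 →
    (ν.prod ν).real {p : ℝ × ℝ | |p.1 - p.2| ≤ r} ≤ C * r) :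
    ∃ g : ℝ → ℝ, MemLp g 2 volume ∧ ∫ x, g x ^ 2 ≤ C ∧ ν = volume.withDensity fun x => ENNReal.ofReal (g x) := by
  have hen : ∀ r : ℝ, 0 < r → r ≤ 1 / 2 →
      ∫⁻ x : ℝ, ν (closedBall x r) ^ 2 ≤ ENNReal.ofReal (2 * r) ^ 2 * ENNReal.ofReal C := by
    intro r hr hr1
    refine (ac_sq hr).trans ?_
    have h1 := h (2 * r) (by linarith) (by linarith)
    have h2 : (ν.prod ν) {p : ℝ × ℝ | |p.1 - p.2| ≤ 2 * r} ≤ ENNReal.ofReal (C * (2 * r)) := by
      rw [← ofReal_measureReal]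
      exact ENNReal.ofReal_le_ofReal h1
    calc ENNReal.ofReal (2 * r) * (ν.prod ν) {p : ℝ × ℝ | |p.1 - p.2| ≤ 2 * r}
        ≤ ENNReal.ofReal (2 * r) * ENNReal.ofReal (C * (2 * r)) := by gcongr
      _ = ENNReal.ofReal (2 * r) ^ 2 * ENNReal.ofReal C := by
          rw [ENNReal.ofReal_mul hC]
          ring
  -- absolute continuity
  have hac : ν ≪ volume := by
    refine Measure.AbsolutelyContinuous.mk fun s hs hs0 => ?_
    rw [hs.measure_eq_iSup_isCompact]
    simp only [ENNReal.iSup_eq_zero]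
    intro K hKs hK
    have hK0 : volume K = 0 := measure_mono_null hKs hs0
    by_contra hne
    have hpos : 0 < ν K := pos_iff_ne_zero.2 hne
    have hKtop : ν K ≠ ⊤ := measure_ne_top ν K
    -- the bound
    have hb : ∀ ε : ENNReal, 0 < ε → ν K ≤ ε ^ (1 / 2 : ℝ) * ENNReal.ofReal C ^ (1 / 2 : ℝ) := by
      intro ε hε
      obtain ⟨U, hKU, hU, hUε⟩ := K.exists_isOpen_lt_of_lt ε (by rw [hK0]; exact hε)
      obtain ⟨r0, hr0, hr0U⟩ := hK.exists_cthickening_subset_open hU hKU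
      set r := min r0 (1 / 2) with hr
      have hrpos : 0 < r := lt_min hr0 (by norm_num)
      have hrU : cthickening r K ⊆ U := (cthickening_mono (min_le_left _ _) K).trans hr0U
      have h1 := ac_K (ν := ν) hK.measurableSet hU.measurableSet hrU
      have h2 := hen r hrpos (min_le_right _ _)
      have h3 : ENNReal.ofReal (2 * r) * ν K ≤ ENNReal.ofReal (2 * r) * (ε ^ (1 / 2 : ℝ) * ENNReal.ofReal C ^ (1 / 2 : ℝ)) := by
        refine h1.trans ?_
        calc (volume U) ^ (1 / 2 : ℝ) * (∫⁻ x : ℝ, ν (closedBall x r) ^ 2) ^ (1 / 2 : ℝ)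
            ≤ ε ^ (1 / 2 : ℝ) * (ENNReal.ofReal (2 * r) ^ 2 * ENNReal.ofReal C) ^ (1 / 2 : ℝ) := by
              gcongr
          _ = ENNReal.ofReal (2 * r) * (ε ^ (1 / 2 : ℝ) * ENNReal.ofReal C ^ (1 / 2 : ℝ)) := by
              rw [ENNReal.mul_rpow_of_nonneg _ _ (by norm_num)]
              have e : (ENNReal.ofReal (2 * r) ^ 2) ^ (1 / 2 : ℝ) = ENNReal.ofReal (2 * r) := by
                rw [← ENNReal.rpow_natCast, ← ENNReal.rpow_mul]
                norm_num
              rw [e]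
              ring
      have h4 : ENNReal.ofReal (2 * r) ≠ 0 := by
        rw [ne_eq, ENNReal.ofReal_eq_zero, not_le]
        linarith
      exact (ENNReal.mul_le_mul_iff_right h4 ENNReal.ofReal_ne_top).1 h3
    have ht : Tendsto (fun ε : ENNReal => ε ^ (1 / 2 : ℝ) * ENNReal.ofReal C ^ (1 / 2 : ℝ)) (𝓝[>] 0) (𝓝 0) := by
      have h1 : Tendsto (fun ε : ENNReal => ε ^ (1 / 2 : ℝ)) (𝓝[>] 0) (𝓝 0) := by
        have h2 := (ENNReal.continuous_rpow_const (y := 1 / 2)).tendsto 0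
        rw [ENNReal.zero_rpow_of_pos (by norm_num)] at h2
        exact h2.mono_left nhdsWithin_le_nhds
      have h3 := ENNReal.Tendsto.mul_const h1 (b := ENNReal.ofReal C ^ (1 / 2 : ℝ))
        (Or.inr (ENNReal.rpow_ne_top_of_nonneg (by norm_num) ENNReal.ofReal_ne_top))
      rwa [zero_mul] at h3
    have hle : ν K ≤ 0 := ge_of_tendsto ht (by
      filter_upwards [self_mem_nhdsWithin] with ε hε
      exact hb ε hε)
    exact hne (le_antisymm hle bot_le)
  have hmeas : ∀ r : ℝ, Measurable fun x : ℝ => ν (closedBall x r) := by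
    intro r
    have hB : MeasurableSet {q : ℝ × ℝ | |q.1 - q.2| ≤ r} :=
      (isClosed_le (f := fun q : ℝ × ℝ => |q.1 - q.2|) (by fun_prop) continuous_const).measurableSet
    have h3 := measurable_measure_prodMk_left (ν := ν) hB
    have e : (fun x : ℝ => ν (closedBall x r)) = fun x => ν (Prod.mk x ⁻¹' {q : ℝ × ℝ | |q.1 - q.2| ≤ r}) := by
      funext x
      congr 1
      ext y
      simp only [Set.mem_preimage, Set.mem_setOf_eq, mem_closedBall]
      rw [dist_comm, Real.dist_eq]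
    rw [e]
    exact h3
  have hB := Besicovitch.ae_tendsto_rnDeriv ν (volume : Measure ℝ)
  have hseq : Tendsto (fun n : ℕ => 1 / ((n : ℝ) + 2)) atTop (𝓝[>] 0) := by
    refine tendsto_nhdsWithin_iff.2 ⟨?_, Eventually.of_forall fun n => ?_⟩
    · have h1 : Tendsto (fun n : ℕ => (n : ℝ) + 2) atTop atTop :=
        tendsto_atTop_add_const_right _ _ tendsto_natCast_atTop_atTop
      exact (tendsto_inv_atTop_zero.comp h1).congr fun n => by rw [Function.comp_apply, one_div]
    · rw [Set.mem_Ioi]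
      positivity
  have hlim : ∀ᵐ x ∂(volume : Measure ℝ), Tendsto (fun n : ℕ => (ν (closedBall x (1 / ((n : ℝ) + 2))) /
      ENNReal.ofReal (2 * (1 / ((n : ℝ) + 2)))) ^ 2) atTop (𝓝 (ν.rnDeriv volume x ^ 2)) := by
    filter_upwards [hB] with x hx
    have h1 := hx.comp hseq
    have h2 := (ENNReal.continuous_pow 2).continuousAt.tendsto.comp h1
    refine h2.congr fun n => ?_
    simp only [Function.comp_apply, Real.volume_closedBall]
  have hfat : ∫⁻ x : ℝ, ν.rnDeriv volume x ^ 2 ≤ ENNReal.ofReal C := by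
    have h1 : ∫⁻ x : ℝ, ν.rnDeriv volume x ^ 2 = ∫⁻ x : ℝ, liminf (fun n : ℕ => (ν (closedBall x (1 / ((n : ℝ) + 2))) /
        ENNReal.ofReal (2 * (1 / ((n : ℝ) + 2)))) ^ 2) atTop := by
      refine lintegral_congr_ae ?_
      filter_upwards [hlim] with x hx
      exact hx.liminf_eq.symm
    rw [h1]
    refine (lintegral_liminf_le fun n => ((hmeas _).div_const _).pow_const 2).trans ?_
    refine liminf_le_of_le (by isBoundedDefault) fun b hb => ?_
    obtain ⟨n, hn⟩ := hb.exists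
    refine hn.trans ?_
    have hr : (0 : ℝ) < 1 / ((n : ℝ) + 2) := by positivity
    have hr1 : 1 / ((n : ℝ) + 2) ≤ 1 / 2 := one_div_le_one_div_of_le (by norm_num) (by linarith [Nat.cast_nonneg (α := ℝ) n])
    have h2 := hen _ hr hr1
    have h3 : ENNReal.ofReal (2 * (1 / ((n : ℝ) + 2))) ≠ 0 := by
      rw [ne_eq, ENNReal.ofReal_eq_zero, not_le]
      positivity
    have e : ∀ x : ℝ, (ν (closedBall x (1 / ((n : ℝ) + 2))) / ENNReal.ofReal (2 * (1 / ((n : ℝ) + 2)))) ^ 2 =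
        ν (closedBall x (1 / ((n : ℝ) + 2))) ^ 2 * (ENNReal.ofReal (2 * (1 / ((n : ℝ) + 2))) ^ 2)⁻¹ := by
      intro x
      rw [div_eq_mul_inv, mul_pow, ENNReal.inv_pow]
    rw [lintegral_congr e, lintegral_mul_const _ ((hmeas _).pow_const 2)]
    calc (∫⁻ x : ℝ, ν (closedBall x (1 / ((n : ℝ) + 2))) ^ 2) * (ENNReal.ofReal (2 * (1 / ((n : ℝ) + 2))) ^ 2)⁻¹
        ≤ (ENNReal.ofReal (2 * (1 / ((n : ℝ) + 2))) ^ 2 * ENNReal.ofReal C) *
          (ENNReal.ofReal (2 * (1 / ((n : ℝ) + 2))) ^ 2)⁻¹ := by gcongr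
      _ = ENNReal.ofReal C := by
          rw [mul_comm (ENNReal.ofReal (2 * (1 / ((n : ℝ) + 2))) ^ 2), mul_assoc,
            ENNReal.mul_inv_cancel (pow_ne_zero 2 h3) (ENNReal.pow_ne_top ENNReal.ofReal_ne_top), mul_one]
  have hle : ∀ x : ℝ, ENNReal.ofReal ((ν.rnDeriv volume x).toReal ^ 2) ≤ ν.rnDeriv volume x ^ 2 := by
    intro x
    rw [ENNReal.ofReal_pow ENNReal.toReal_nonneg]
    gcongr
    exact ENNReal.ofReal_toReal_le
  have hint : ∫ x : ℝ, (ν.rnDeriv volume x).toReal ^ 2 ≤ C := by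
    rw [integral_eq_lintegral_of_nonneg_ae (Eventually.of_forall fun x => sq_nonneg _)
      ((Measure.measurable_rnDeriv ν volume).ennreal_toReal.pow_const 2).aestronglyMeasurable]
    refine ENNReal.toReal_le_of_le_ofReal hC ?_
    exact (lintegral_mono hle).trans hfat
  refine ⟨fun x => (ν.rnDeriv volume x).toReal, ?_, hint, ?_⟩
  · -- the density is in L²
    refine ⟨(Measure.measurable_rnDeriv ν volume).ennreal_toReal.aestronglyMeasurable, ?_⟩
    rw [eLpNorm_lt_top_iff_lintegral_rpow_enorm_lt_top (by norm_num) (by norm_num)]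
    refine lt_of_le_of_lt ?_ (lt_of_le_of_lt hfat ENNReal.ofReal_lt_top)
    refine lintegral_mono fun x => ?_
    rw [ENNReal.toReal_ofNat]
    have h1 : ‖(ν.rnDeriv volume x).toReal‖ₑ ≤ ν.rnDeriv volume x := by
      rw [Real.enorm_eq_ofReal ENNReal.toReal_nonneg]
      exact ENNReal.ofReal_toReal_le
    calc ‖(ν.rnDeriv volume x).toReal‖ₑ ^ (2 : ℝ) ≤ ν.rnDeriv volume x ^ (2 : ℝ) := by gcongr
      _ = ν.rnDeriv volume x ^ 2 := by
          rw [← ENNReal.rpow_natCast]
          norm_num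
  · have h1 := Measure.withDensity_rnDeriv_eq ν volume hac
    conv_lhs => rw [← h1]
    refine withDensity_congr_ae ?_
    filter_upwards [Measure.rnDeriv_lt_top ν volume] with x hx
    exact (ENNReal.ofReal_toReal hx.ne).symm

end Pool.Agent.H76.NE
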