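import Pool.Agent.H76.ND.Char

/-!
# Decay of the characteristic function from many large rounding errors
-/

set_option autoImplicit false

namespace Pool.Agent.H76.NE

open Finset Pool.Agent.H76.ND

/-- the rounding error of `t l ^ j / π` -/
noncomputable def er (l t : ℝ) (j : ℕ) : ℝ := |t * l ^ j / Real.pi - round (t * l ^ j / Real.pi)|

/-- the indices with a large rounding error -/
noncomputable def bad (l t : ℝ) (N : ℕ) : Finset ℕ := (range (N + 1)).filter fun j => 1 / 20 ≤ er l t j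

/-- the base of the decay -/
noncomputable def qq : ℝ := Real.cos (Real.pi / 20)

theorem qq_bounds : 7 / 10 ≤ qq ∧ qq < 1 := by
  have hp := Real.pi_pos
  have hp4 := Real.pi_lt_four
  constructor
  · have h := Real.one_sub_sq_div_two_le_cos (x := Real.pi / 20)
    unfold qq
    nlinarith
  · unfold qq
    have h : Real.cos (Real.pi / 20) < Real.cos 0 :=
      Real.cos_lt_cos_of_nonneg_of_le_pi le_rfl (by linarith) (by positivity)
    rwa [Real.cos_zero] at h

theorem cos_er (y : ℝ) : |Real.cos (Real.pi * y)| = Real.cos (Real.pi * |y - round y|) := by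
  have e : Real.pi * y = Real.pi * (y - round y) + (round y : ℝ) * Real.pi := by ring
  have h1 : |Real.cos (Real.pi * y)| = |Real.cos (Real.pi * (y - round y))| := by
    rw [e, Real.cos_add_int_mul_pi, abs_mul, abs_neg_one_zpow, one_mul]
  have h2 : Real.cos (Real.pi * |y - round y|) = Real.cos (Real.pi * (y - round y)) := by
    rw [← Real.cos_abs (Real.pi * (y - round y)), abs_mul, abs_of_pos Real.pi_pos]
  rw [h1, h2]
  refine abs_of_nonneg ?_
  rw [← h2]
  have h3 := abs_sub_round y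
  refine Real.cos_nonneg_of_mem_Icc ⟨?_, ?_⟩
  · have : 0 ≤ Real.pi * |y - round y| := mul_nonneg Real.pi_pos.le (abs_nonneg _)
    linarith [Real.pi_pos]
  · have := mul_le_mul_of_nonneg_left h3 Real.pi_pos.le
    linarith

theorem ff_le_bad {l : ℝ} (h0 : 0 ≤ l) (h1 : l < 1) (t : ℝ) (N : ℕ) : ff l t ≤ qq ^ (bad l t N).card := by
  obtain ⟨hq0, hq1⟩ := qq_bounds
  have h2 : ff l t ≤ PC l (N + 1) t := by
    rw [ff_self h0 h1 (N + 1) t]
    exact mul_le_of_le_one_right (PC_nonneg _ _ _) (ff_le_one h0 h1 _)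
  refine h2.trans ?_
  have h3 : PC l (N + 1) t ≤ ∏ n ∈ range (N + 1), (if 1 / 20 ≤ er l t n then qq else 1) := by
    unfold PC
    refine prod_le_prod (fun _ _ => abs_nonneg _) fun n _ => ?_
    split_ifs with h
    · have e : t * l ^ n = Real.pi * (t * l ^ n / Real.pi) := by
        field_simp
      rw [e, cos_er]
      unfold qq
      refine Real.cos_le_cos_of_nonneg_of_le_pi (by positivity) ?_ ?_
      · have h4 := mul_le_mul_of_nonneg_left (abs_sub_round (t * l ^ n / Real.pi)) Real.pi_pos.le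
        linarith [Real.pi_pos]
      · unfold er at h
        have h4 := mul_le_mul_of_nonneg_left h Real.pi_pos.le
        linarith
    · exact Real.abs_cos_le_one _
  refine h3.trans (le_of_eq ?_)
  rw [prod_ite, prod_const_one, mul_one, prod_const, bad]

/-- the exponent of the decay -/
noncomputable def ee (c : ℝ) : ℝ := c * (Real.log qq⁻¹ / Real.log (10 / 7))

theorem ee_bounds : 0 < Real.log qq⁻¹ / Real.log (10 / 7) ∧ Real.log qq⁻¹ / Real.log (10 / 7) ≤ 1 := by
  obtain ⟨hq0, hq1⟩ := qq_bounds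
  have hL : 0 < Real.log (10 / 7) := Real.log_pos (by norm_num)
  constructor
  · refine div_pos (Real.log_pos ?_) hL
    exact (one_lt_inv₀ (by linarith)).2 hq1
  · rw [div_le_one hL]
    refine Real.log_le_log (by positivity) ?_
    rw [inv_le_comm₀ (by linarith) (by norm_num)]
    linarith

theorem decay {l : ℝ} (h0 : 0 ≤ l) (h1 : l < 1) {t c : ℝ} {N : ℕ} (ht : 0 < t) (hc0 : 0 ≤ c) (hc1 : c ≤ 1)
    (hcard : c * N ≤ (bad l t N).card) (htN : t < 20 * Real.pi * (10 / 7) ^ (N + 1)) :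
    ff l t ≤ 90 * t ^ (-ee c) := by
  obtain ⟨hq0, hq1⟩ := qq_bounds
  obtain ⟨he0, he1⟩ := ee_bounds
  have hL : 0 < Real.log (10 / 7) := Real.log_pos (by norm_num)
  have hqpos : 0 < qq := by linarith
  have hee0 : 0 ≤ ee c := mul_nonneg hc0 he0.le
  have hee1 : ee c ≤ 1 := by
    unfold ee
    nlinarith
  have h2 : ff l t ≤ qq ^ (c * N) := by
    refine (ff_le_bad h0 h1 t N).trans ?_
    rw [← Real.rpow_natCast]
    exact Real.rpow_le_rpow_of_exponent_ge hqpos hq1.le hcard
  have h3 : qq ^ (c * N) = ((10 / 7 : ℝ) ^ N) ^ (-ee c) := by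
    have e1 : (0 : ℝ) < (10 / 7) ^ N := by positivity
    rw [Real.rpow_def_of_pos hqpos, Real.rpow_def_of_pos e1, Real.log_pow]
    congr 1
    unfold ee
    rw [Real.log_inv]
    field_simp
  have h4 : t / 90 ≤ (10 / 7 : ℝ) ^ N := by
    rw [pow_succ] at htN
    have hp := Real.pi_lt_d2
    have e1 : (0 : ℝ) < (10 / 7) ^ N := by positivity
    have h5 : 20 * Real.pi * ((10 / 7) ^ N * (10 / 7)) ≤ 90 * (10 / 7) ^ N := by
      have h6 : 20 * Real.pi * (10 / 7) ≤ 90 := by linarith
      calc 20 * Real.pi * ((10 / 7) ^ N * (10 / 7)) = (20 * Real.pi * (10 / 7)) * (10 / 7) ^ N := by ring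
        _ ≤ 90 * (10 / 7) ^ N := mul_le_mul_of_nonneg_right h6 e1.le
    rw [div_le_iff₀ (by norm_num)]
    linarith
  have h5 : ((10 / 7 : ℝ) ^ N) ^ (-ee c) ≤ (t / 90) ^ (-ee c) :=
    Real.rpow_le_rpow_of_nonpos (by positivity) h4 (by linarith)
  have h6 : (t / 90) ^ (-ee c) = 90 ^ (ee c) * t ^ (-ee c) := by
    rw [Real.div_rpow ht.le (by norm_num), Real.rpow_neg (by norm_num : (0 : ℝ) ≤ 90), div_inv_eq_mul, mul_comm]
  have h7 : (90 : ℝ) ^ (ee c) ≤ 90 := by
    calc (90 : ℝ) ^ (ee c) ≤ 90 ^ (1 : ℝ) := Real.rpow_le_rpow_of_exponent_le (by norm_num) hee1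
      _ = 90 := Real.rpow_one _
  rw [h3] at h2
  rw [h6] at h5
  exact h2.trans (h5.trans (mul_le_mul_of_nonneg_right h7 (Real.rpow_nonneg ht.le _)))

end Pool.Agent.H76.NE
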