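import Pool.Agent.H76.NE.Seq
import Pool.Agent.H76.NE.Dec

/-!
# The cover of the exceptional parameters

A parameter with few large rounding errors at the frequency `t` is close to one of the ratios given by the first two integers and a word with few nonzero letters; the number of these words.
-/

set_option autoImplicit false

namespace Pool.Agent.H76.NE

open Finset Pool.Agent.H76.ND

/-- the letters as integers between `-3` and `3` -/
def lv (k : Fin 7) : ℤ := (k.val : ℤ) - 3

/-- a word continued by zeros -/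
def ext {N : ℕ} (w : Fin N → Fin 7) (i : ℕ) : ℤ := if h : i < N then lv (w ⟨i, h⟩) else 0

/-- the number of nonzero letters -/
def nz {N : ℕ} (w : Fin N → Fin 7) : ℕ := (univ.filter fun i => w i ≠ 3).card

/-- the centre given by the first two integers and a word -/
noncomputable def cen (N : ℕ) (p : Fin 51 × Fin 51 × (Fin N → Fin 7)) : ℝ :=
  (bs (p.1.val : ℤ) (p.2.1.val : ℤ) (ext p.2.2) (N - 1) : ℝ) / (bs (p.1.val : ℤ) (p.2.1.val : ℤ) (ext p.2.2) N : ℝ)

theorem cover {l t : ℝ} (hl1 : 7 / 10 ≤ l) (hl2 : l ≤ 5 / 7) {N : ℕ} (hN : 1 ≤ N) (hy0 : 20 ≤ t * l ^ N / Real.pi)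
    (hy1 : t * l ^ N / Real.pi < 20 * l⁻¹) :
    ∃ p : Fin 51 × Fin 51 × (Fin N → Fin 7), nz p.2.2 ≤ 3 * (bad l t N).card ∧ |l - cen N p| ≤ (5 / 7) ^ N := by
  have hl0 : 0 < l := by linarith
  have hb1 : 7 / 5 ≤ l⁻¹ := by
    rw [le_inv_comm₀ (by norm_num) hl0]
    norm_num
    linarith
  have hb2 : l⁻¹ ≤ 10 / 7 := by
    rw [inv_le_comm₀ hl0 (by norm_num)]
    norm_num
    linarith
  obtain ⟨y, hy⟩ : ∃ y : ℕ → ℝ, ∀ i, y i = t * l ^ (N - i) / Real.pi := ⟨_, fun _ => rfl⟩
  have hstep : ∀ i, i + 1 ≤ N → y (i + 1) = l⁻¹ * y i := by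
    intro i hi
    have e : N - i = (N - (i + 1)) + 1 := by omega
    rw [hy, hy, e, pow_succ]
    field_simp
  have hge : ∀ i, i ≤ N → 20 * (7 / 5 : ℝ) ^ i ≤ y i := by
    intro i
    induction i with
    | zero =>
      intro _
      rw [pow_zero, mul_one, hy, Nat.sub_zero]
      exact hy0
    | succ i ih =>
      intro hi
      have h1 := ih (by omega)
      rw [hstep i hi, pow_succ]
      have h2 : (0 : ℝ) < 20 * (7 / 5) ^ i := by positivity
      calc 20 * ((7 / 5 : ℝ) ^ i * (7 / 5)) = 7 / 5 * (20 * (7 / 5 : ℝ) ^ i) := by ring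
        _ ≤ l⁻¹ * y i := mul_le_mul hb1 h1 h2.le (by positivity)
  have hge20 : ∀ i, i ≤ N → 20 ≤ y i := fun i hi => by
    have h1 := hge i hi
    have h2 : (1 : ℝ) ≤ (7 / 5) ^ i := one_le_pow₀ (by norm_num)
    linarith
  obtain ⟨b, hb⟩ : ∃ b : ℕ → ℤ, ∀ i, b i = round (y i) := ⟨_, fun _ => rfl⟩
  have hbe : ∀ i, |y i - b i| ≤ 1 / 2 := fun i => by
    rw [hb]
    exact abs_sub_round _
  obtain ⟨d, hd⟩ : ∃ d : ℕ → ℤ, ∀ i, d i = if i + 2 ≤ N then b (i + 2) - round ((b (i + 1) : ℝ) ^ 2 / (b i : ℝ)) else 0 :=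
    ⟨_, fun _ => rfl⟩
  have hd3 : ∀ i, |d i| ≤ 3 := by
    intro i
    rw [hd]
    split_ifs with h
    · rw [hb, hb, hb]
      exact letter_le hb1 hb2 (hstep i (by omega)) (hstep (i + 1) h) (hge20 i (by omega))
    · simp
  have hd3' : ∀ i, -3 ≤ d i ∧ d i ≤ 3 := fun i => abs_le.1 (hd3 i)
  have hw : ∀ i : Fin N, (d i + 3).toNat < 7 := fun i => by
    have := hd3' i
    omega
  have hext : ext (fun i : Fin N => (⟨(d i + 3).toNat, hw i⟩ : Fin 7)) = d := by
    funext i
    unfold ext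
    split_ifs with h
    · unfold lv
      have := hd3' i
      simp only
      omega
    · rw [hd, if_neg (by omega)]
  -- the number of nonzero letters
  have hnz : nz (fun i : Fin N => (⟨(d i + 3).toNat, hw i⟩ : Fin 7)) ≤ 3 * (bad l t N).card := by
    have hbad : ∀ i, i ≤ N → ¬ |y i - round (y i)| < 1 / 20 → N - i ∈ bad l t N := by
      intro i hi h
      rw [bad, mem_filter, mem_range, er, ← hy]
      exact ⟨by omega, not_lt.1 h⟩
    have hsub : ∀ i : Fin N, (⟨(d i + 3).toNat, hw i⟩ : Fin 7) ≠ 3 →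
        (i : ℕ) ∈ ((bad l t N).image fun j => N - j) ∪ ((bad l t N).image fun j => N - 1 - j) ∪
          ((bad l t N).image fun j => N - 2 - j) := by
      intro i hi
      have hdi : d i ≠ 0 := by
        intro h0
        apply hi
        apply Fin.ext
        simp only [h0]
        rfl
      have hi2 : (i : ℕ) + 2 ≤ N := by
        by_contra h
        apply hdi
        rw [hd, if_neg h]
      rw [mem_union, mem_union, mem_image, mem_image, mem_image]
      by_cases c0 : |y i - round (y i)| < 1 / 20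
      · by_cases c1 : |y (i + 1) - round (y (i + 1))| < 1 / 20
        · by_cases c2 : |y (i + 2) - round (y (i + 2))| < 1 / 20
          · exfalso
            apply hdi
            rw [hd, if_pos hi2, hb, hb, hb]
            exact letter_zero hb1 hb2 (hstep i (by omega)) (hstep (i + 1) hi2) (hge20 i (by omega)) c0 c1 c2
          · right
            exact ⟨N - (i + 2), hbad _ hi2 c2, by omega⟩
        · left; right
          exact ⟨N - (i + 1), hbad _ (by omega) c1, by omega⟩
      · left; left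
        exact ⟨N - i, hbad _ (by omega) c0, by omega⟩
    have hcard : nz (fun i : Fin N => (⟨(d i + 3).toNat, hw i⟩ : Fin 7)) ≤
        (((bad l t N).image fun j => N - j) ∪ ((bad l t N).image fun j => N - 1 - j) ∪
          ((bad l t N).image fun j => N - 2 - j)).card := by
      unfold nz
      refine card_le_card_of_injOn (fun i : Fin N => (i : ℕ)) (fun i hi => ?_) (fun i _ j _ hij => Fin.ext hij)
      exact hsub i (mem_filter.1 hi).2
    refine hcard.trans ((card_union_le _ _).trans ?_)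
    have c1 := card_union_le ((bad l t N).image fun j => N - j) ((bad l t N).image fun j => N - 1 - j)
    have c2 : ((bad l t N).image fun j => N - j).card ≤ (bad l t N).card := card_image_le
    have c3 : ((bad l t N).image fun j => N - 1 - j).card ≤ (bad l t N).card := card_image_le
    have c4 : ((bad l t N).image fun j => N - 2 - j).card ≤ (bad l t N).card := card_image_le
    omega
  -- the first two integers
  have hy0' : y 0 < 20 * (10 / 7) := by
    rw [hy, Nat.sub_zero]
    exact hy1.trans_le (mul_le_mul_of_nonneg_left hb2 (by norm_num))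
  have hy1' : y 1 < 10 / 7 * (20 * (10 / 7)) := by
    rw [hstep 0 hN]
    calc l⁻¹ * y 0 ≤ 10 / 7 * y 0 := mul_le_mul_of_nonneg_right hb2 (by linarith [hge20 0 (by omega)])
      _ < _ := mul_lt_mul_of_pos_left hy0' (by norm_num)
  have hb0r : 0 ≤ b 0 ∧ b 0 < 51 := by
    have h1 := abs_le.1 (hbe 0)
    have h2 := hge20 0 (by omega)
    constructor
    · have : (0 : ℝ) ≤ b 0 := by linarith
      exact_mod_cast this
    · have : (b 0 : ℝ) < 51 := by linarith
      exact_mod_cast this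
  have hb1r : 0 ≤ b 1 ∧ b 1 < 51 := by
    have h1 := abs_le.1 (hbe 1)
    have h2 := hge20 1 hN
    constructor
    · have : (0 : ℝ) ≤ b 1 := by linarith
      exact_mod_cast this
    · have : (b 1 : ℝ) < 51 := by linarith
      exact_mod_cast this
  have hbs := bs_eq (b := b) (d := d) (N := N) fun i hi => by rw [hd, if_pos hi]
  refine ⟨(⟨(b 0).toNat, by omega⟩, ⟨(b 1).toNat, by omega⟩, fun i : Fin N => ⟨(d i + 3).toNat, hw i⟩), hnz, ?_⟩
  have hcen : cen N (⟨(b 0).toNat, by omega⟩, ⟨(b 1).toNat, by omega⟩, fun i : Fin N => ⟨(d i + 3).toNat, hw i⟩) =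
      (b (N - 1) : ℝ) / (b N : ℝ) := by
    unfold cen
    simp only
    rw [hext, Int.toNat_of_nonneg hb0r.1, Int.toNat_of_nonneg hb1r.1, hbs (N - 1) (by omega), hbs N le_rfl]
  rw [hcen]
  have hyN : y (N - 1) = l * y N := by
    have h1 := hstep (N - 1) (by omega)
    have e : N - 1 + 1 = N := by omega
    rw [e] at h1
    rw [h1, ← mul_assoc, mul_inv_cancel₀ hl0.ne', one_mul]
  have hbN : (7 / 5 : ℝ) ^ N ≤ b N := by
    have h1 := abs_le.1 (hbe N)
    have h2 := hge N le_rfl
    have h3 : (1 : ℝ) ≤ (7 / 5) ^ N := one_le_pow₀ (by norm_num)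
    linarith
  have hbN0 : (0 : ℝ) < b N := lt_of_lt_of_le (by positivity) hbN
  have h1 : l - (b (N - 1) : ℝ) / (b N : ℝ) = (l * b N - b (N - 1)) / b N := by
    field_simp
  rw [h1, abs_div, abs_of_pos hbN0]
  have h2 : |l * b N - b (N - 1)| ≤ 1 := by
    have e : l * b N - b (N - 1) = (y (N - 1) - b (N - 1)) - l * (y N - b N) := by
      rw [hyN]
      ring
    rw [e]
    refine (abs_sub _ _).trans ?_
    rw [abs_mul, abs_of_pos hl0]
    have h3 := hbe (N - 1)
    have h4 : l * |y N - b N| ≤ 1 * (1 / 2) := mul_le_mul (by linarith) (hbe N) (abs_nonneg _) (by norm_num)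
    linarith
  calc |l * b N - b (N - 1)| / b N ≤ 1 / b N := div_le_div_of_nonneg_right h2 hbN0.le
    _ ≤ 1 / (7 / 5) ^ N := one_div_le_one_div_of_le (by positivity) hbN
    _ = (5 / 7) ^ N := by
        rw [one_div, ← inv_pow]
        norm_num

theorem sum_words (N : ℕ) (x : ℝ) : ∑ w : Fin N → Fin 7, x ^ nz w = (1 + 6 * x) ^ N := by
  have h1 : ∀ w : Fin N → Fin 7, x ^ nz w = ∏ i : Fin N, (if w i ≠ 3 then x else 1) := by
    intro w
    rw [prod_ite, prod_const_one, mul_one, prod_const, nz]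
  have h2 : ∑ k : Fin 7, (if k ≠ 3 then x else 1) = 1 + 6 * x := by
    rw [Fin.sum_univ_seven]
    norm_num
    have e1 : (0 : Fin 7) ≠ 3 := by decide
    have e2 : (1 : Fin 7) ≠ 3 := by decide
    have e3 : (2 : Fin 7) ≠ 3 := by decide
    have e4 : (4 : Fin 7) ≠ 3 := by decide
    have e5 : (5 : Fin 7) ≠ 3 := by decide
    have e6 : (6 : Fin 7) ≠ 3 := by decide
    simp only [e1, e2, e3, e4, e5, e6, if_false]
    ring
  have h3 : ∏ _i : Fin N, ∑ k : Fin 7, (if k ≠ 3 then x else 1) =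
      ∑ w : Fin N → Fin 7, ∏ i : Fin N, (if w i ≠ 3 then x else 1) := by
    rw [Finset.prod_univ_sum, Fintype.piFinset_univ]
  rw [sum_congr rfl fun w _ => h1 w, ← h3, h2, prod_const, card_univ, Fintype.card_fin]

theorem card_words (N m : ℕ) {x : ℝ} (hx0 : 0 < x) (hx1 : x ≤ 1) :
    ((univ.filter fun p : Fin 51 × Fin 51 × (Fin N → Fin 7) => nz p.2.2 ≤ m).card : ℝ) ≤
      2601 * (1 + 6 * x) ^ N * x⁻¹ ^ m := by
  have h1 : ∑ p : Fin 51 × Fin 51 × (Fin N → Fin 7), x ^ nz p.2.2 = 2601 * (1 + 6 * x) ^ N := by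
    rw [Fintype.sum_prod_type]
    simp only
    rw [sum_const, Fintype.sum_prod_type]
    simp only
    rw [sum_const, sum_words, card_univ, Fintype.card_fin, smul_smul, nsmul_eq_mul]
    norm_num
  have h2 : ((univ.filter fun p : Fin 51 × Fin 51 × (Fin N → Fin 7) => nz p.2.2 ≤ m).card : ℝ) * x ^ m ≤
      ∑ p : Fin 51 × Fin 51 × (Fin N → Fin 7), x ^ nz p.2.2 := by
    rw [← nsmul_eq_mul, ← sum_const]
    refine (sum_le_sum fun p hp => ?_).trans (sum_le_sum_of_subset_of_nonneg (filter_subset _ _) fun p _ _ => by positivity)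
    exact pow_le_pow_of_le_one hx0.le hx1 (mem_filter.1 hp).2
  rw [h1] at h2
  have hxm : 0 < x ^ m := by positivity
  calc ((univ.filter fun p : Fin 51 × Fin 51 × (Fin N → Fin 7) => nz p.2.2 ≤ m).card : ℝ)
      = ((univ.filter fun p : Fin 51 × Fin 51 × (Fin N → Fin 7) => nz p.2.2 ≤ m).card : ℝ) * x ^ m * x⁻¹ ^ m := by
        rw [mul_assoc, ← mul_pow, mul_inv_cancel₀ hx0.ne', one_pow, mul_one]
    _ ≤ 2601 * (1 + 6 * x) ^ N * x⁻¹ ^ m := mul_le_mul_of_nonneg_right h2 (by positivity)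

end Pool.Agent.H76.NE
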