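import Pool.Agent.H76.NE.Cov

/-!
# The family of intervals and its content
-/

set_option autoImplicit false

namespace Pool.Agent.H76.NE

open Finset Pool.Agent.H76.ND

theorem level {s : ℝ} (hs : 0 < s) : ∃ c K : ℝ, 0 < c ∧ c ≤ 1 ∧ 1 < K ∧ ∀ N : ℕ,
    ((univ.filter fun p : Fin 51 × Fin 51 × (Fin N → Fin 7) => (nz p.2.2 : ℝ) ≤ 3 * c * N).card : ℝ) *
      ((5 / 7 : ℝ) ^ N) ^ s ≤ 2601 * K⁻¹ ^ N := by
  set K : ℝ := (7 / 5 : ℝ) ^ (s / 3) with hK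
  have hK1 : 1 < K := Real.one_lt_rpow (by norm_num) (by positivity)
  have hK0 : 0 < K := by linarith
  set x : ℝ := min 1 ((K - 1) / 6) with hx
  have hx0 : 0 < x := lt_min one_pos (by linarith)
  have hx1 : x ≤ 1 := min_le_left _ _
  have hxK : 1 + 6 * x ≤ K := by
    have := min_le_right 1 ((K - 1) / 6)
    linarith
  have hxi : 1 ≤ x⁻¹ := (one_le_inv₀ hx0).2 hx1
  have hlx : 0 ≤ Real.log x⁻¹ := Real.log_nonneg hxi
  have hlK : 0 < Real.log K := Real.log_pos hK1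
  set c : ℝ := min 1 (Real.log K / (3 * Real.log x⁻¹ + 1)) with hc
  have hc0 : 0 < c := lt_min one_pos (by positivity)
  have hc1 : c ≤ 1 := min_le_left _ _
  have hcx : x⁻¹ ^ (3 * c) ≤ K := by
    rw [Real.rpow_def_of_pos (by positivity), ← Real.le_log_iff_exp_le hK0]
    have h1 : c ≤ Real.log K / (3 * Real.log x⁻¹ + 1) := min_le_right _ _
    rw [le_div_iff₀ (by positivity)] at h1
    nlinarith
  refine ⟨c, K, hc0, hc1, hK1, fun N => ?_⟩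
  have hcN : 0 ≤ 3 * c * N := by positivity
  have h1 := card_words N ⌊3 * c * N⌋₊ hx0 hx1
  have h2 : (univ.filter fun p : Fin 51 × Fin 51 × (Fin N → Fin 7) => nz p.2.2 ≤ ⌊3 * c * N⌋₊) =
      univ.filter fun p : Fin 51 × Fin 51 × (Fin N → Fin 7) => (nz p.2.2 : ℝ) ≤ 3 * c * N := by
    refine filter_congr fun p _ => ?_
    exact Nat.le_floor_iff hcN
  rw [h2] at h1
  have h3 : x⁻¹ ^ ⌊3 * c * N⌋₊ ≤ K ^ N := by
    calc x⁻¹ ^ ⌊3 * c * N⌋₊ = x⁻¹ ^ ((⌊3 * c * N⌋₊ : ℕ) : ℝ) := (Real.rpow_natCast _ _).symm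
      _ ≤ x⁻¹ ^ (3 * c * N) := Real.rpow_le_rpow_of_exponent_le hxi (Nat.floor_le hcN)
      _ = (x⁻¹ ^ (3 * c)) ^ N := by rw [Real.rpow_mul (by positivity), Real.rpow_natCast]
      _ ≤ K ^ N := pow_le_pow_left₀ (by positivity) hcx N
  have h4 : (1 + 6 * x) ^ N ≤ K ^ N := pow_le_pow_left₀ (by positivity) hxK N
  have h5 : ((5 / 7 : ℝ) ^ N) ^ s = (K⁻¹ ^ N) * (K⁻¹ ^ N) * (K⁻¹ ^ N) := by
    have e1 : ((5 / 7 : ℝ) ^ N) ^ s = ((5 / 7 : ℝ) ^ s) ^ N := by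
      rw [← Real.rpow_natCast, ← Real.rpow_natCast, ← Real.rpow_mul (by norm_num), ← Real.rpow_mul (by norm_num), mul_comm]
    have e2 : (5 / 7 : ℝ) ^ s = K⁻¹ * K⁻¹ * K⁻¹ := by
      have e3 : K⁻¹ = (5 / 7 : ℝ) ^ (s / 3) := by
        rw [hK, ← Real.inv_rpow (by norm_num)]
        norm_num
      rw [e3, ← Real.rpow_add (by norm_num), ← Real.rpow_add (by norm_num)]
      congr 1
      ring
    rw [e1, e2, mul_pow, mul_pow]
  rw [h5]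
  have hKN : 0 < K ^ N := by positivity
  have hKi : 0 < K⁻¹ ^ N := by positivity
  have hKK : K ^ N * K⁻¹ ^ N = 1 := by
    rw [← mul_pow, mul_inv_cancel₀ hK0.ne', one_pow]
  calc ((univ.filter fun p : Fin 51 × Fin 51 × (Fin N → Fin 7) => (nz p.2.2 : ℝ) ≤ 3 * c * N).card : ℝ) *
        (K⁻¹ ^ N * K⁻¹ ^ N * K⁻¹ ^ N)
      ≤ (2601 * K ^ N * K ^ N) * (K⁻¹ ^ N * K⁻¹ ^ N * K⁻¹ ^ N) := by
        refine mul_le_mul_of_nonneg_right (h1.trans ?_) (by positivity)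
        exact mul_le_mul (mul_le_mul_of_nonneg_left h4 (by norm_num)) h3 (by positivity) (by positivity)
    _ = 2601 * (K ^ N * K⁻¹ ^ N) * (K ^ N * K⁻¹ ^ N) * K⁻¹ ^ N := by ring
    _ = 2601 * K⁻¹ ^ N := by rw [hKK, mul_one, mul_one]

/-- the index type of the family of intervals -/
def Idx (c : ℝ) (N0 : ℕ) : Type :=
  Σ k : ℕ, {p : Fin 51 × Fin 51 × (Fin (N0 + k) → Fin 7) // (nz p.2.2 : ℝ) ≤ 3 * c * ((N0 + k : ℕ) : ℝ)}

theorem countable_Idx (c : ℝ) (N0 : ℕ) : Countable (Idx c N0) := by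
  unfold Idx
  infer_instance

theorem content {s c K : ℝ} (hK : 1 < K) (h : ∀ N : ℕ,
    ((univ.filter fun p : Fin 51 × Fin 51 × (Fin N → Fin 7) => (nz p.2.2 : ℝ) ≤ 3 * c * N).card : ℝ) *
      ((5 / 7 : ℝ) ^ N) ^ s ≤ 2601 * K⁻¹ ^ N) (N0 : ℕ) :
    ∑' i : Idx c N0, ENNReal.ofReal (((5 / 7 : ℝ) ^ (N0 + i.1)) ^ s) ≤
      ENNReal.ofReal (2601 * K⁻¹ ^ N0 * (1 - K⁻¹)⁻¹) := by
  have hK0 : 0 < K⁻¹ := by positivity
  have hK1 : K⁻¹ < 1 := inv_lt_one_of_one_lt₀ hK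
  unfold Idx
  rw [ENNReal.tsum_sigma (fun (k : ℕ) (_ : {p : Fin 51 × Fin 51 × (Fin (N0 + k) → Fin 7) //
    (nz p.2.2 : ℝ) ≤ 3 * c * ((N0 + k : ℕ) : ℝ)}) => ENNReal.ofReal (((5 / 7 : ℝ) ^ (N0 + k)) ^ s))]
  have h1 : ∀ k : ℕ, ∑' _p : {p : Fin 51 × Fin 51 × (Fin (N0 + k) → Fin 7) // (nz p.2.2 : ℝ) ≤ 3 * c * ((N0 + k : ℕ) : ℝ)},
      ENNReal.ofReal (((5 / 7 : ℝ) ^ (N0 + k)) ^ s) ≤ ENNReal.ofReal (2601 * K⁻¹ ^ (N0 + k)) := by
    intro k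
    rw [tsum_fintype, sum_const, card_univ, Fintype.card_subtype, nsmul_eq_mul, ← ENNReal.ofReal_natCast,
      ← ENNReal.ofReal_mul (Nat.cast_nonneg _)]
    exact ENNReal.ofReal_le_ofReal (h (N0 + k))
  refine (ENNReal.tsum_le_tsum h1).trans (le_of_eq ?_)
  have h2 : ∀ k : ℕ, 2601 * K⁻¹ ^ (N0 + k) = 2601 * K⁻¹ ^ N0 * K⁻¹ ^ k := fun k => by rw [pow_add]; ring
  have hsum : Summable fun k : ℕ => 2601 * K⁻¹ ^ N0 * K⁻¹ ^ k := (summable_geometric_of_lt_one hK0.le hK1).mul_left _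
  rw [tsum_congr fun k => congrArg ENNReal.ofReal (h2 k), ← ENNReal.ofReal_tsum_of_nonneg (fun k => by positivity) hsum,
    tsum_mul_left, tsum_geometric_of_lt_one hK0.le hK1]

/-- outside the intervals the characteristic function decays -/
theorem decay_all {l c : ℝ} (hl1 : 7 / 10 ≤ l) (hl2 : l ≤ 5 / 7) (hc0 : 0 ≤ c) (hc1 : c ≤ 1) {N0 : ℕ} (hN0 : 1 ≤ N0)
    (h : ∀ i : Idx c N0, (5 / 7 : ℝ) ^ (N0 + i.1) < |l - cen (N0 + i.1) i.2.1|) {t : ℝ}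
    (ht : 20 * Real.pi * (10 / 7) ^ N0 ≤ t) : ff l t ≤ 90 * t ^ (-ee c) := by
  have hl0 : 0 < l := by linarith
  have hb1 : 7 / 5 ≤ l⁻¹ := by
    rw [le_inv_comm₀ (by norm_num) hl0]
    norm_num
    linarith
  have hb2 : l⁻¹ ≤ 10 / 7 := by
    rw [inv_le_comm₀ hl0 (by norm_num)]
    norm_num
    linarith
  have hp : 0 < 20 * Real.pi := by positivity
  have ht0 : 0 < t := lt_of_lt_of_le (by positivity) ht
  have hx1 : 1 ≤ t / (20 * Real.pi) := by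
    rw [one_le_div hp]
    refine le_trans ?_ ht
    exact le_mul_of_one_le_right hp.le (one_le_pow₀ (by norm_num))
  obtain ⟨N, hNa, hNb⟩ := exists_nat_pow_near hx1 (show 1 < l⁻¹ by linarith)
  have hNb' : t / (20 * Real.pi) < (10 / 7 : ℝ) ^ (N + 1) := hNb.trans_le (pow_le_pow_left₀ (by positivity) hb2 _)
  have hN : N0 ≤ N := by
    have h1 : (10 / 7 : ℝ) ^ N0 < (10 / 7) ^ (N + 1) := by
      refine lt_of_le_of_lt ?_ hNb'
      rw [le_div_iff₀ hp]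
      linarith
    have h2 := (pow_lt_pow_iff_right₀ (show (1 : ℝ) < 10 / 7 by norm_num)).1 h1
    omega
  have htN : t < 20 * Real.pi * (10 / 7) ^ (N + 1) := by
    rw [div_lt_iff₀ hp] at hNb'
    linarith
  refine decay hl0.le (by linarith) ht0 hc0 hc1 ?_ htN
  by_contra hcon
  push Not at hcon
  have hlN : 0 < l ^ N := by positivity
  have e1 : l⁻¹ ^ N * l ^ N = 1 := by
    rw [← mul_pow, inv_mul_cancel₀ hl0.ne', one_pow]
  have hy0 : 20 ≤ t * l ^ N / Real.pi := by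
    rw [le_div_iff₀ hp] at hNa
    rw [le_div_iff₀ Real.pi_pos]
    have h1 := mul_le_mul_of_nonneg_right hNa hlN.le
    calc 20 * Real.pi = (l⁻¹ ^ N * l ^ N) * (20 * Real.pi) := by rw [e1, one_mul]
      _ = l⁻¹ ^ N * (20 * Real.pi) * l ^ N := by ring
      _ ≤ t * l ^ N := h1
  have hy1 : t * l ^ N / Real.pi < 20 * l⁻¹ := by
    rw [div_lt_iff₀ hp] at hNb
    rw [div_lt_iff₀ Real.pi_pos]
    have h1 := mul_lt_mul_of_pos_right hNb hlN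
    calc t * l ^ N < l⁻¹ ^ (N + 1) * (20 * Real.pi) * l ^ N := h1
      _ = (l⁻¹ ^ N * l ^ N) * (20 * l⁻¹ * Real.pi) := by rw [pow_succ]; ring
      _ = 20 * l⁻¹ * Real.pi := by rw [e1, one_mul]
  obtain ⟨k, rfl⟩ := Nat.exists_eq_add_of_le hN
  obtain ⟨p, hp1, hp2⟩ := cover hl1 hl2 (by omega) hy0 hy1
  have h3 : (nz p.2.2 : ℝ) ≤ 3 * c * ((N0 + k : ℕ) : ℝ) := by
    have h4 : (nz p.2.2 : ℝ) ≤ 3 * ((bad l t (N0 + k)).card : ℝ) := by exact_mod_cast hp1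
    linarith
  have h5 := h ⟨k, p, h3⟩
  exact absurd hp2 (not_le.2 h5)

end Pool.Agent.H76.NE
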