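import Pool.Agent.H76.NE.Lev

/-!
# The content of the family, uniformly in the exponent
-/

set_option autoImplicit false

namespace Pool.Agent.H76.NE

open Finset Pool.Agent.H76.ND

theorem log75 : 1 / 3 ≤ Real.log (7 / 5) ∧ Real.log (7 / 5) ≤ 2 / 5 := by
  constructor
  · rw [Real.le_log_iff_exp_le (by norm_num)]
    have h1 : Real.exp (1 / 3) ^ 3 ≤ (7 / 5 : ℝ) ^ 3 := by
      rw [← Real.exp_nat_mul]
      have h2 := Real.exp_one_lt_d9
      norm_num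
      linarith
    exact le_of_pow_le_pow_left₀ (by norm_num) (by norm_num) h1
  · have := Real.log_le_sub_one_of_pos (show (0 : ℝ) < 7 / 5 by norm_num)
    linarith

theorem level2 {s c : ℝ} (hs0 : 0 < s) (hs1 : s ≤ 1) (hc0 : 0 ≤ c)
    (hcs : 3 * c * Real.log (18 / (s * Real.log (7 / 5))) ≤ s / 3 * Real.log (7 / 5)) (N : ℕ) :
    ((univ.filter fun p : Fin 51 × Fin 51 × (Fin N → Fin 7) => (nz p.2.2 : ℝ) ≤ 3 * c * N).card : ℝ) *
      ((5 / 7 : ℝ) ^ N) ^ s ≤ 2601 * ((7 / 5 : ℝ) ^ (s / 3))⁻¹ ^ N := by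
  obtain ⟨hl1, hl2⟩ := log75
  set K : ℝ := (7 / 5 : ℝ) ^ (s / 3) with hK
  have hK1 : 1 < K := Real.one_lt_rpow (by norm_num) (by positivity)
  have hK0 : 0 < K := by linarith
  have hlK : Real.log K = s / 3 * Real.log (7 / 5) := by
    rw [hK, Real.log_rpow (by norm_num)]
  set x : ℝ := s * Real.log (7 / 5) / 18 with hx
  have hx0 : 0 < x := by positivity
  have hx1 : x ≤ 1 := by
    rw [hx]
    nlinarith
  have hxK : 1 + 6 * x ≤ K := by
    have h1 := Real.add_one_le_exp (Real.log K)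
    rw [Real.exp_log hK0, hlK] at h1
    rw [hx]
    linarith
  have hxi : 1 ≤ x⁻¹ := (one_le_inv₀ hx0).2 hx1
  have hlx : Real.log x⁻¹ = Real.log (18 / (s * Real.log (7 / 5))) := by
    rw [hx, inv_div]
  have hcx : x⁻¹ ^ (3 * c) ≤ K := by
    rw [Real.rpow_def_of_pos (by positivity), ← Real.le_log_iff_exp_le hK0, hlK, hlx]
    linarith
  have hcN : 0 ≤ 3 * c * N := by positivity
  have h1 := card_words N ⌊3 * c * N⌋₊ hx0 hx1
  have h2 : (univ.filter fun p : Fin 51 × Fin 51 × (Fin N → Fin 7) => nz p.2.2 ≤ ⌊3 * c * N⌋₊) =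
      univ.filter fun p : Fin 51 × Fin 51 × (Fin N → Fin 7) => (nz p.2.2 : ℝ) ≤ 3 * c * N := by
    refine filter_congr fun p _ => ?_
    exact Nat.le_floor_iff hcN
  rw [h2] at h1
  have h3 : x⁻¹ ^ ⌊3 * c * N⌋₊ ≤ K ^ N := by
    calc x⁻¹ ^ ⌊3 * c * N⌋₊ = x⁻¹ ^ ((⌊3 * c * N⌋₊ : ℕ) : ℝ) := (Real.rpow_natCast _ _).symm
      _ ≤ x⁻¹ ^ (3 * c * N) := Real.rpow_le_rpow_of_exponent_le hxi (Nat.floor_le hcN)
      _ = (x⁻¹ ^ (3 * c)) ^ N := by rw [Real.rpow_mul (by positivity), Real.rpow_natCast]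
      _ ≤ K ^ N := pow_le_pow_left₀ (by positivity) hcx N
  have h4 : (1 + 6 * x) ^ N ≤ K ^ N := pow_le_pow_left₀ (by positivity) hxK N
  have h5 : ((5 / 7 : ℝ) ^ N) ^ s = (K⁻¹ ^ N) * (K⁻¹ ^ N) * (K⁻¹ ^ N) := by
    have e1 : ((5 / 7 : ℝ) ^ N) ^ s = ((5 / 7 : ℝ) ^ s) ^ N := by
      rw [← Real.rpow_natCast, ← Real.rpow_natCast, ← Real.rpow_mul (by norm_num), ← Real.rpow_mul (by norm_num), mul_comm]
    have e2 : (5 / 7 : ℝ) ^ s = K⁻¹ * K⁻¹ * K⁻¹ := by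
      have e3 : K⁻¹ = (5 / 7 : ℝ) ^ (s / 3) := by
        rw [hK, ← Real.inv_rpow (by norm_num)]
        norm_num
      rw [e3, ← Real.rpow_add (by norm_num), ← Real.rpow_add (by norm_num)]
      congr 1
      ring
    rw [e1, e2, mul_pow, mul_pow]
  rw [h5]
  have hKN : 0 < K ^ N := by positivity
  have hKi : 0 < K⁻¹ ^ N := by positivity
  have hKK : K ^ N * K⁻¹ ^ N = 1 := by
    rw [← mul_pow, mul_inv_cancel₀ hK0.ne', one_pow]
  calc ((univ.filter fun p : Fin 51 × Fin 51 × (Fin N → Fin 7) => (nz p.2.2 : ℝ) ≤ 3 * c * N).card : ℝ) *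
        (K⁻¹ ^ N * K⁻¹ ^ N * K⁻¹ ^ N)
      ≤ (2601 * K ^ N * K ^ N) * (K⁻¹ ^ N * K⁻¹ ^ N * K⁻¹ ^ N) := by
        refine mul_le_mul_of_nonneg_right (h1.trans ?_) (by positivity)
        exact mul_le_mul (mul_le_mul_of_nonneg_left h4 (by norm_num)) h3 (by positivity) (by positivity)
    _ = 2601 * (K ^ N * K⁻¹ ^ N) * (K ^ N * K⁻¹ ^ N) * K⁻¹ ^ N := by ring
    _ = 2601 * K⁻¹ ^ N := by rw [hKK, mul_one, mul_one]

/-- `1 - e^(-a) ≥ a / 2` -/
theorem one_sub_exp {a : ℝ} (h0 : 0 ≤ a) (h1 : a ≤ 1) : a / 2 ≤ 1 - Real.exp (-a) := by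
  have h2 := Real.add_one_le_exp a
  have h3 : Real.exp (-a) ≤ (1 + a)⁻¹ := by
    rw [Real.exp_neg]
    exact inv_anti₀ (by linarith) (by linarith)
  have h4 : (1 + a)⁻¹ ≤ 1 - a / 2 := by
    rw [inv_le_iff_one_le_mul₀ (by linarith)]
    nlinarith
  linarith

/-- the content of the family in terms of `T0 = exp w` -/
theorem content2 {s c w : ℝ} (hs0 : 0 < s) (hs1 : s ≤ 1) (hc0 : 0 ≤ c)
    (hcs : 3 * c * Real.log (18 / (s * Real.log (7 / 5))) ≤ s / 3 * Real.log (7 / 5)) {N0 : ℕ}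
    (hN : Real.exp w / 90 ≤ (10 / 7 : ℝ) ^ N0) :
    ∑' i : Idx c N0, ENNReal.ofReal (((5 / 7 : ℝ) ^ (N0 + i.1)) ^ s) ≤
      ENNReal.ofReal (10 ^ 7 / s * Real.exp (-(s * w / 4))) := by
  obtain ⟨hl1, hl2⟩ := log75
  have hL : 0 < Real.log (10 / 7) := Real.log_pos (by norm_num)
  have hL2 : Real.log (10 / 7) ≤ 3 / 7 := by
    have := Real.log_le_sub_one_of_pos (show (0 : ℝ) < 10 / 7 by norm_num)
    linarith
  set K : ℝ := (7 / 5 : ℝ) ^ (s / 3) with hK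
  have hK1 : 1 < K := Real.one_lt_rpow (by norm_num) (by positivity)
  have hK0 : 0 < K := by linarith
  have hlK : Real.log K = s / 3 * Real.log (7 / 5) := by
    rw [hK, Real.log_rpow (by norm_num)]
  refine (content hK1 (level2 hs0 hs1 hc0 hcs) N0).trans (ENNReal.ofReal_le_ofReal ?_)
  set κ : ℝ := Real.log K / Real.log (10 / 7) with hκ
  have hκ0 : 0 < κ := div_pos (Real.log_pos hK1) hL
  have hκs : s / 4 ≤ κ := by
    rw [hκ, hlK, le_div_iff₀ hL]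
    nlinarith
  have hκ1 : κ ≤ 1 := by
    rw [hκ, div_le_one hL]
    refine Real.log_le_log hK0 ?_
    calc K ≤ (7 / 5 : ℝ) ^ (1 : ℝ) := Real.rpow_le_rpow_of_exponent_le (by norm_num) (by linarith)
      _ ≤ 10 / 7 := by rw [Real.rpow_one]; norm_num
  have hinv : (1 - K⁻¹)⁻¹ ≤ 18 / s := by
    have h1 := one_sub_exp (a := Real.log K) (Real.log_nonneg hK1.le) (by rw [hlK]; nlinarith)
    rw [Real.exp_neg, Real.exp_log hK0, hlK] at h1
    have h2 : s / 18 ≤ 1 - K⁻¹ := by nlinarith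
    calc (1 - K⁻¹)⁻¹ ≤ (s / 18)⁻¹ := inv_anti₀ (by positivity) h2
      _ = 18 / s := inv_div _ _
  have h1 : K⁻¹ ^ N0 ≤ 90 * Real.exp (-(κ * w)) := by
    have e1 : K⁻¹ ^ N0 = ((10 / 7 : ℝ) ^ N0) ^ (-κ) := by
      have e2 : (0 : ℝ) < (10 / 7) ^ N0 := by positivity
      rw [Real.rpow_def_of_pos e2, Real.log_pow, ← Real.rpow_natCast, Real.rpow_def_of_pos (by positivity), Real.log_inv]
      congr 1
      rw [hκ]
      field_simp
    rw [e1]
    calc ((10 / 7 : ℝ) ^ N0) ^ (-κ) ≤ (Real.exp w / 90) ^ (-κ) :=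
          Real.rpow_le_rpow_of_nonpos (by positivity) hN (by linarith)
      _ = 90 ^ κ * Real.exp (-(κ * w)) := by
          rw [Real.div_rpow (Real.exp_pos _).le (by norm_num), Real.rpow_neg (by norm_num : (0 : ℝ) ≤ 90), div_inv_eq_mul, mul_comm,
            ← Real.exp_mul]
          congr 2
          ring
      _ ≤ 90 * Real.exp (-(κ * w)) := by
          refine mul_le_mul_of_nonneg_right ?_ (Real.exp_nonneg _)
          calc (90 : ℝ) ^ κ ≤ 90 ^ (1 : ℝ) := Real.rpow_le_rpow_of_exponent_le (by norm_num) hκ1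
            _ = 90 := Real.rpow_one _
  rcases le_or_gt 0 w with hw | hw
  · have h2 : Real.exp (-(κ * w)) ≤ Real.exp (-(s * w / 4)) := by
      rw [Real.exp_le_exp]
      have := mul_le_mul_of_nonneg_right hκs hw
      linarith
    have h3 : 0 < (1 - K⁻¹)⁻¹ := inv_pos.2 (by linarith [inv_lt_one_of_one_lt₀ hK1])
    calc 2601 * K⁻¹ ^ N0 * (1 - K⁻¹)⁻¹ ≤ 2601 * (90 * Real.exp (-(s * w / 4))) * (18 / s) := by
          refine mul_le_mul (mul_le_mul_of_nonneg_left (h1.trans ?_) (by norm_num)) hinv h3.le (by positivity)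
          exact mul_le_mul_of_nonneg_left h2 (by norm_num)
      _ = 4213620 / s * Real.exp (-(s * w / 4)) := by ring
      _ ≤ 10 ^ 7 / s * Real.exp (-(s * w / 4)) := by
          refine mul_le_mul_of_nonneg_right ?_ (Real.exp_nonneg _)
          exact div_le_div_of_nonneg_right (by norm_num) hs0.le
  · have h3 : 0 < (1 - K⁻¹)⁻¹ := inv_pos.2 (by linarith [inv_lt_one_of_one_lt₀ hK1])
    have h4 : K⁻¹ ^ N0 ≤ 1 := pow_le_one₀ (by positivity) (inv_lt_one_of_one_lt₀ hK1).le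
    have h5 : 1 ≤ Real.exp (-(s * w / 4)) := by
      rw [← Real.exp_zero, Real.exp_le_exp]
      nlinarith
    calc 2601 * K⁻¹ ^ N0 * (1 - K⁻¹)⁻¹ ≤ 2601 * 1 * (18 / s) :=
          mul_le_mul (mul_le_mul_of_nonneg_left h4 (by norm_num)) hinv h3.le (by norm_num)
      _ = 46818 / s * 1 := by ring
      _ ≤ 10 ^ 7 / s * Real.exp (-(s * w / 4)) := by
          refine mul_le_mul ?_ h5 zero_le_one (by positivity)
          exact div_le_div_of_nonneg_right (by norm_num) hs0.le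

end Pool.Agent.H76.NE
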