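import Pool.Agent.H76.ND.Final

/-!
# The `L^q` norms for `q ≥ 2` from the energy and the mass of the balls
-/

set_option autoImplicit false

namespace Pool.Agent.H76.NE

open MeasureTheory Metric Set Filter Topology Pool.Agent.H76.ND

variable {ν : Measure ℝ} [IsProbabilityMeasure ν]

theorem measurable_ball (r : ℝ) : Measurable fun x : ℝ => ν (closedBall x r) := by
  have hB : MeasurableSet {q : ℝ × ℝ | |q.1 - q.2| ≤ r} :=
    (isClosed_le (f := fun q : ℝ × ℝ => |q.1 - q.2|) (by fun_prop) continuous_const).measurableSet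
  have h3 := measurable_measure_prodMk_left (ν := ν) hB
  have e : (fun x : ℝ => ν (closedBall x r)) = fun x => ν (Prod.mk x ⁻¹' {q : ℝ × ℝ | |q.1 - q.2| ≤ r}) := by
    funext x
    congr 1
    ext y
    rw [mem_closedBall, dist_comm, Real.dist_eq]
    rfl
  rw [e]
  exact h3

theorem integral_ball (r : ℝ) :
    ∫ x, ν.real (closedBall x r) ∂ν = (ν.prod ν).real {p : ℝ × ℝ | |p.1 - p.2| ≤ r} := by
  have hB : MeasurableSet {q : ℝ × ℝ | |q.1 - q.2| ≤ r} :=
    (isClosed_le (f := fun q : ℝ × ℝ => |q.1 - q.2|) (by fun_prop) continuous_const).measurableSet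
  have h1 : ∫ x, (ν (closedBall x r)).toReal ∂ν = (∫⁻ x, ν (closedBall x r) ∂ν).toReal :=
    integral_toReal (measurable_ball r).aemeasurable (ae_of_all _ fun x => measure_lt_top _ _)
  have h2 : (ν.prod ν) {p : ℝ × ℝ | |p.1 - p.2| ≤ r} = ∫⁻ x, ν (closedBall x r) ∂ν := by
    rw [Measure.prod_apply hB]
    refine lintegral_congr fun x => ?_
    congr 1
    ext y
    rw [mem_closedBall, dist_comm, Real.dist_eq]
    rfl
  rw [measureReal_def, h2, ← h1]
  rfl

theorem lq {A E r q : ℝ} (hq : 2 ≤ q) (hA : ∀ x, ν.real (closedBall x r) ≤ A)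
    (hE : (ν.prod ν).real {p : ℝ × ℝ | |p.1 - p.2| ≤ r} ≤ E) :
    ∫ x, ν.real (closedBall x r) ^ (q - 1) ∂ν ≤ A ^ (q - 2) * E := by
  have hA0 : 0 ≤ A := measureReal_nonneg.trans (hA 0)
  have hm : Measurable fun x => ν.real (closedBall x r) := (measurable_ball r).ennreal_toReal
  have hi : Integrable (fun x => ν.real (closedBall x r)) ν := by
    refine Integrable.mono' (integrable_const (1 : ℝ)) hm.aestronglyMeasurable (ae_of_all _ fun x => ?_)
    rw [Real.norm_eq_abs, abs_of_nonneg measureReal_nonneg]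
    exact measureReal_le_one
  calc ∫ x, ν.real (closedBall x r) ^ (q - 1) ∂ν ≤ ∫ x, A ^ (q - 2) * ν.real (closedBall x r) ∂ν := by
        refine integral_mono_of_nonneg (ae_of_all _ fun x => Real.rpow_nonneg measureReal_nonneg _) (hi.const_mul _)
          (ae_of_all _ fun x => ?_)
        show ν.real (closedBall x r) ^ (q - 1) ≤ A ^ (q - 2) * ν.real (closedBall x r)
        have h1 : ν.real (closedBall x r) ^ (q - 1) = ν.real (closedBall x r) ^ (q - 2) * ν.real (closedBall x r) := by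
          have e : q - 1 = (q - 2) + 1 := by ring
          rw [e, Real.rpow_add_one' measureReal_nonneg (by linarith)]
        rw [h1]
        exact mul_le_mul_of_nonneg_right (Real.rpow_le_rpow measureReal_nonneg (hA x) (by linarith)) measureReal_nonneg
    _ = A ^ (q - 2) * (ν.prod ν).real {p : ℝ × ℝ | |p.1 - p.2| ≤ r} := by
        rw [integral_const_mul, integral_ball]
    _ ≤ A ^ (q - 2) * E := mul_le_mul_of_nonneg_left hE (Real.rpow_nonneg hA0 _)

/-- the theorem near `1/√2` -/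
theorem lq_near {l : ℝ} (h0 : 0 < |l - 1 / Real.sqrt 2|) (h1 : |l - 1 / Real.sqrt 2| ≤ (10 ^ 14)⁻¹) {q r : ℝ} (hq : 2 ≤ q)
    (hr : 0 < r) (hr1 : r ≤ 1) : ∫ x, (nu l).real (closedBall x r) ^ (q - 1) ∂(nu l) ≤
      (10 ^ 14) ^ (q - 1) * r ^ ((q - 1) - 10 ^ 14 * ((q - 2) * (|l - 1 / Real.sqrt 2| * Real.log |l - 1 / Real.sqrt 2| ^ 2) +
        (|l - 1 / Real.sqrt 2| * Real.log |l - 1 / Real.sqrt 2| ^ 2) ^ 3)) := by
  have hp := nu_prob (fin_one h1).1.le (fin_one h1).2
  have hA := fun x : ℝ => fin_ball h0 h1 x hr hr1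
  have hE := fin_en h0 h1 hr hr1
  simp only [← Real.closedBall_eq_Icc] at hA
  refine (lq hq hA hE).trans (le_of_eq ?_)
  set D := |l - 1 / Real.sqrt 2| * Real.log |l - 1 / Real.sqrt 2| ^ 2
  rw [Real.mul_rpow (by norm_num) (Real.rpow_nonneg hr.le _), ← Real.rpow_mul hr.le]
  have e1 : ((10 : ℝ) ^ 14) ^ (q - 1) = (10 ^ 14) ^ (q - 2) * 10 ^ 14 := by
    have e : q - 1 = (q - 2) + 1 := by ring
    rw [e, Real.rpow_add_one (by norm_num)]
  have e2 : r ^ ((q - 1) - 10 ^ 14 * ((q - 2) * D + D ^ 3)) = r ^ ((1 - 10 ^ 14 * D) * (q - 2)) * r ^ (1 - 10 ^ 14 * D ^ 3) := by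
    rw [← Real.rpow_add hr]
    congr 1
    ring
  rw [e1, e2]
  ring

end Pool.Agent.H76.NE
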