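import Mathlib

/-!
# Rounded geometric progressions

`y (i + 1) = β y i`, `b i = round (y i)`: `b (i + 2)` is `round (b (i + 1) ^ 2 / b i)` up to a letter between `-3` and `3`, which is `0` if the three rounding errors are less than `1/20`
(Erdős-Kahane).
-/

set_option autoImplicit false

namespace Pool.Agent.H76.NE

/-- a sequence of integers given by its first two terms and the letters -/
noncomputable def bs (b0 b1 : ℤ) (d : ℕ → ℤ) : ℕ → ℤ
  | 0 => b0
  | 1 => b1
  | (i + 2) => round ((bs b0 b1 d (i + 1) : ℝ) ^ 2 / (bs b0 b1 d i : ℝ)) + d i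

theorem bs_add_two (b0 b1 : ℤ) (d : ℕ → ℤ) (i : ℕ) :
    bs b0 b1 d (i + 2) = round ((bs b0 b1 d (i + 1) : ℝ) ^ 2 / (bs b0 b1 d i : ℝ)) + d i := by
  rw [bs]

/-- the sequence `b` satisfies the recursion with its own letters -/
theorem bs_eq {b : ℕ → ℤ} {d : ℕ → ℤ} {N : ℕ}
    (h : ∀ i, i + 2 ≤ N → d i = b (i + 2) - round ((b (i + 1) : ℝ) ^ 2 / (b i : ℝ))) :
    ∀ i, i ≤ N → bs (b 0) (b 1) d i = b i := by
  intro i
  induction i using Nat.strong_induction_on with
  | _ i ih =>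
    intro hi
    match i, ih, hi with
    | 0, _, _ => rw [bs]
    | 1, _, _ => rw [bs]
    | (i + 2), ih, hi =>
      rw [bs_add_two, ih (i + 1) (by omega) (by omega), ih i (by omega) (by omega), h i hi]
      ring

theorem round_uniq {x : ℝ} {n : ℤ} (h : |x - n| < 1 / 2) : round x = n := by
  have h1 := abs_sub_round x
  have h2 : |((round x - n : ℤ) : ℝ)| < 1 := by
    push_cast
    have h3 : ((round x : ℤ) : ℝ) - n = (x - n) - (x - round x) := by ring
    rw [h3]
    calc |x - n - (x - round x)| ≤ |x - n| + |x - round x| := abs_sub _ _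
      _ < 1 := by linarith
  have h3 : |round x - n| < 1 := by exact_mod_cast h2
  have h4 := Int.abs_lt_one_iff.1 h3
  linarith

section

variable {β y0 y1 y2 : ℝ} (hβ0 : 7 / 5 ≤ β) (hβ1 : β ≤ 10 / 7) (h1 : y1 = β * y0) (h2 : y2 = β * y1) (h0 : 20 ≤ y0)

include h1 h2 h0

theorem seq_id :
    (round y2 : ℝ) - (round y1 : ℝ) ^ 2 / (round y0 : ℝ) =
      -β ^ 2 * (y0 - round y0) + 2 * β * (y1 - round y1) - (y2 - round y2) -
        (β * (y0 - round y0) - (y1 - round y1)) ^ 2 / (round y0 : ℝ) := by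
  have h3 := abs_le.1 (abs_sub_round y0)
  have hb : (round y0 : ℝ) ≠ 0 := by
    have : (0 : ℝ) < round y0 := by linarith
    exact this.ne'
  have e1 : (round y1 : ℝ) = β * round y0 + (β * (y0 - round y0) - (y1 - round y1)) := by
    rw [h1]
    ring
  have e2 : (round y2 : ℝ) = β ^ 2 * (round y0 + (y0 - round y0)) - (y2 - round y2) := by
    rw [h2, h1]
    ring
  generalize hw : β * (y0 - round y0) - (y1 - round y1) = w at *
  have e3 : β * (y0 - round y0) = w + (y1 - round y1) := by linarith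
  rw [eq_sub_iff_add_eq, ← sub_eq_zero]
  have e4 : (round y1 : ℝ) ^ 2 / (round y0 : ℝ) = β ^ 2 * round y0 + 2 * β * w + w ^ 2 / round y0 := by
    rw [e1]
    field_simp
    ring
  rw [e4, e2]
  have e5 : 2 * β * (y1 - round y1) = 2 * β * (β * (y0 - round y0) - w) := by
    rw [e3]
    ring
  rw [e5]
  have e6 : y2 = β ^ 2 * y0 := by
    rw [h2, h1]
    ring
  rw [e6]
  ring

include hβ0 hβ1

/-- the bound for the letters -/
theorem seq_bound {a : ℝ} (ha : 0 ≤ a) (he0 : |y0 - round y0| ≤ a) (he1 : |y1 - round y1| ≤ a)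
    (he2 : |y2 - round y2| ≤ a) :
    |(round y2 : ℝ) - (round y1 : ℝ) ^ 2 / (round y0 : ℝ)| ≤ 6 * a + a ^ 2 / 3 := by
  rw [seq_id h1 h2 h0]
  have h3 := abs_le.1 (abs_sub_round y0)
  have hb : (39 / 2 : ℝ) ≤ round y0 := by linarith
  have hw : |β * (y0 - round y0) - (y1 - round y1)| ≤ 17 / 7 * a := by
    calc |β * (y0 - round y0) - (y1 - round y1)| ≤ |β * (y0 - round y0)| + |y1 - round y1| := abs_sub _ _
      _ = β * |y0 - round y0| + |y1 - round y1| := by rw [abs_mul, abs_of_nonneg (by linarith)]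
      _ ≤ 10 / 7 * a + a := by
          refine add_le_add (mul_le_mul hβ1 he0 (abs_nonneg _) (by norm_num)) he1
      _ = 17 / 7 * a := by ring
  have hw2 : (β * (y0 - round y0) - (y1 - round y1)) ^ 2 ≤ (17 / 7 * a) ^ 2 := by
    rw [← sq_abs (β * (y0 - round y0) - (y1 - round y1))]
    exact pow_le_pow_left₀ (abs_nonneg _) hw 2
  have hw3 : |(β * (y0 - round y0) - (y1 - round y1)) ^ 2 / (round y0 : ℝ)| ≤ a ^ 2 / 3 := by
    rw [abs_of_nonneg (div_nonneg (sq_nonneg _) (by linarith)), div_le_iff₀ (by linarith)]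
    nlinarith [sq_nonneg a]
  have hβ2 : β ^ 2 ≤ 100 / 49 := by nlinarith
  have k1 : |(-β ^ 2 * (y0 - round y0))| ≤ 100 / 49 * a := by
    rw [abs_mul, abs_neg, abs_of_nonneg (sq_nonneg β)]
    exact mul_le_mul hβ2 he0 (abs_nonneg _) (by norm_num)
  have k2 : |2 * β * (y1 - round y1)| ≤ 20 / 7 * a := by
    rw [abs_mul, abs_of_nonneg (by linarith)]
    exact mul_le_mul (by linarith) he1 (abs_nonneg _) (by norm_num)
  calc |(-β ^ 2 * (y0 - round y0) + 2 * β * (y1 - round y1) - (y2 - round y2) -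
        (β * (y0 - round y0) - (y1 - round y1)) ^ 2 / (round y0 : ℝ))|
      ≤ |(-β ^ 2 * (y0 - round y0))| + |2 * β * (y1 - round y1)| + |y2 - round y2| +
        |(β * (y0 - round y0) - (y1 - round y1)) ^ 2 / (round y0 : ℝ)| := by
        refine (abs_sub _ _).trans (add_le_add ?_ le_rfl)
        refine (abs_sub _ _).trans (add_le_add ?_ le_rfl)
        exact abs_add_le _ _
    _ ≤ 100 / 49 * a + 20 / 7 * a + a + a ^ 2 / 3 := by linarith
    _ ≤ 6 * a + a ^ 2 / 3 := by linarith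

theorem letter_le : |round y2 - round ((round y1 : ℝ) ^ 2 / (round y0 : ℝ))| ≤ 3 := by
  have h3 := seq_bound hβ0 hβ1 h1 h2 h0 (a := 1 / 2) (by norm_num) (abs_sub_round _) (abs_sub_round _) (abs_sub_round _)
  have h4 := abs_sub_round ((round y1 : ℝ) ^ 2 / (round y0 : ℝ))
  have h5 : |((round y2 - round ((round y1 : ℝ) ^ 2 / (round y0 : ℝ)) : ℤ) : ℝ)| < 4 := by
    push_cast
    have e : (round y2 : ℝ) - round ((round y1 : ℝ) ^ 2 / (round y0 : ℝ)) =
        ((round y2 : ℝ) - (round y1 : ℝ) ^ 2 / (round y0 : ℝ)) +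
          ((round y1 : ℝ) ^ 2 / (round y0 : ℝ) - round ((round y1 : ℝ) ^ 2 / (round y0 : ℝ))) := by ring
    rw [e]
    refine (abs_add_le _ _).trans_lt ?_
    norm_num at h3
    linarith
  have h6 : |round y2 - round ((round y1 : ℝ) ^ 2 / (round y0 : ℝ))| < 4 := by exact_mod_cast h5
  omega

theorem letter_zero (he0 : |y0 - round y0| < 1 / 20) (he1 : |y1 - round y1| < 1 / 20)
    (he2 : |y2 - round y2| < 1 / 20) : round y2 - round ((round y1 : ℝ) ^ 2 / (round y0 : ℝ)) = 0 := by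
  have h3 := seq_bound hβ0 hβ1 h1 h2 h0 (a := 1 / 20) (by norm_num) he0.le he1.le he2.le
  rw [sub_eq_zero]
  symm
  apply round_uniq
  rw [abs_sub_comm]
  refine h3.trans_lt ?_
  norm_num

end

end Pool.Agent.H76.NE
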