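import Pool.Agent.H76.ND.Final
import Pool.Agent.H76.NE.AcB

/-!
# Uniform bounds in a window around `1/√2`
-/

set_option autoImplicit false

namespace Pool.Agent.H76.NE

open MeasureTheory Set Filter Topology Pool.Agent.H76.ND

/-- the bounds of `ND` for all parameters of a window -/
theorem win_bounds {l ε : ℝ} (h0 : 0 < ε) (h1 : ε ≤ (10 ^ 14)⁻¹) (hle : |l - 1 / Real.sqrt 2| ≤ ε) {T : ℝ} (hT : 1 ≤ T) :
    GG l T ≤ 21 * T ^ (10 ^ 14 * (ε * Real.log ε ^ 2) ^ 3) ∧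
    ∫ t in (0 : ℝ)..T, ff l t ≤ 20 * T ^ (10 ^ 14 * (ε * Real.log ε ^ 2)) := by
  obtain ⟨hl, hk'⟩ := fin_kappa (hle.trans h1)
  have hk : |l ^ 2 - 1 / 2| ≤ 2 * ε := by linarith
  obtain ⟨hD0, hD1, hL⟩ := fin_D h0 h1
  set D := ε * Real.log ε ^ 2 with hD
  have hM : 1152 ≤ 1 / (256 * D) := by
    rw [le_div_iff₀ (by positivity)]
    linarith
  obtain ⟨n, hn1, hn2⟩ := fin_n hM
  have hlM : Real.log (1 / (256 * D)) ≤ -Real.log ε := by
    rw [← Real.log_inv]
    refine Real.log_le_log (by positivity) ?_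
    rw [one_div]
    refine inv_anti₀ h0 ?_
    have h3 : 1 ≤ Real.log ε ^ 2 := by nlinarith
    have h4 := mul_le_mul_of_nonneg_left h3 h0.le
    rw [hD]
    linarith
  have hnn : (n : ℝ) ^ 2 ≤ 4 * Real.log ε ^ 2 := by
    have h2 : (n : ℝ) ≤ 2 * -Real.log ε := by linarith
    calc (n : ℝ) ^ 2 ≤ (2 * -Real.log ε) ^ 2 := pow_le_pow_left₀ (Nat.cast_nonneg n) h2 2
      _ = 4 * Real.log ε ^ 2 := by ring
  have hc : 32 * (2 * ε) * (n : ℝ) ^ 2 * (1 / (256 * D)) ≤ 1 := by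
    rw [mul_one_div, div_le_one (by positivity), hD]
    calc 32 * (2 * ε) * (n : ℝ) ^ 2 ≤ 32 * (2 * ε) * (4 * Real.log ε ^ 2) :=
          mul_le_mul_of_nonneg_left hnn (by positivity)
      _ = 256 * (ε * Real.log ε ^ 2) := by ring
  have hG := GG_l hl hk hM hn1 hc hT
  have hL1 := L1_l hl hk hM hn1 hc hT
  constructor
  · refine hG.trans (mul_le_mul_of_nonneg_left (Real.rpow_le_rpow_of_exponent_le hT ?_) (by norm_num))
    have e : 373248 / (1 / (256 * D)) ^ 3 = 373248 * 256 ^ 3 * D ^ 3 := by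
      field_simp
    rw [e]
    exact mul_le_mul_of_nonneg_right (by norm_num) (by positivity)
  · refine hL1.trans (mul_le_mul_of_nonneg_left (Real.rpow_le_rpow_of_exponent_le hT ?_) (by norm_num))
    have e : 4608 / (1 / (256 * D)) = 4608 * 256 * D := by
      field_simp
    rw [e]
    exact mul_le_mul_of_nonneg_right (by norm_num) (by positivity)

theorem D_le {ε : ℝ} (h0 : 0 < ε) : ε * Real.log ε ^ 2 ≤ 16 * Real.sqrt ε ∨ 1 < ε := by
  rcases lt_or_ge 1 ε with h | h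
  · exact Or.inr h
  left
  have hl : Real.log ε ≤ 0 := Real.log_nonpos h0.le h
  have h2 := Real.log_le_rpow_div (x := ε⁻¹) (by positivity) (show (0 : ℝ) < 1 / 4 by norm_num)
  rw [Real.log_inv] at h2
  have h3 : Real.log ε ^ 2 ≤ (ε⁻¹ ^ (1 / 4 : ℝ) / (1 / 4)) ^ 2 := by
    have h4 : Real.log ε ^ 2 = (-Real.log ε) ^ 2 := by ring
    rw [h4]
    exact pow_le_pow_left₀ (by linarith) h2 2
  have h4 : (ε⁻¹ ^ (1 / 4 : ℝ) / (1 / 4)) ^ 2 = 16 * ε⁻¹ ^ (1 / 2 : ℝ) := by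
    have e : (ε⁻¹ ^ (1 / 4 : ℝ)) ^ 2 = ε⁻¹ ^ (1 / 2 : ℝ) := by
      rw [← Real.rpow_natCast, ← Real.rpow_mul (by positivity)]
      norm_num
    rw [div_pow, e]
    ring
  rw [h4, Real.inv_rpow h0.le, ← Real.sqrt_eq_rpow] at h3
  have h6 : 0 < Real.sqrt ε := Real.sqrt_pos.2 h0
  calc ε * Real.log ε ^ 2 ≤ ε * (16 * (Real.sqrt ε)⁻¹) := mul_le_mul_of_nonneg_left h3 h0.le
    _ = 16 * Real.sqrt ε := by
        nth_rewrite 1 [← Real.mul_self_sqrt h0.le]
        field_simp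

/-- with the decay beyond `T0` the energy is at most `59` -/
theorem uni {l : ℝ} (h0 : 0 ≤ l) (h1 : l < 1) {θ η T0 : ℝ} (hT0 : 1 ≤ T0) (hη : 0 < η) (hη2 : η ≤ 1) (hθ : θ ≤ η / 2)
    (hL1 : ∀ T : ℝ, 1 ≤ T → ∫ t in (0 : ℝ)..T, ff l t ≤ 20 * T ^ θ) (hG : GG l T0 ≤ 58)
    (hK : ∀ t : ℝ, T0 ≤ t → ff l t ≤ 90 * t ^ (-η))
    (hsm : 3600 * T0 ^ (-(η / 2)) * (1 - (2 : ℝ) ^ (-(η / 2)))⁻¹ ≤ 1) (T : ℝ) : GG l T ≤ 59 := by
  have hcf : Continuous fun t => ff l t ^ 2 := (continuous_ff h0 h1).pow 2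
  have hT00 : 0 < T0 := by linarith
  set q : ℝ := (2 : ℝ) ^ (-(η / 2)) with hq
  have hq0 : 0 < q := Real.rpow_pos_of_pos (by norm_num) _
  have hq1 : q < 1 := Real.rpow_lt_one_of_one_lt_of_neg (by norm_num) (by linarith)
  set A : ℝ := 3600 * T0 ^ (-(η / 2)) with hA
  have hA0 : 0 ≤ A := by positivity
  have hstep : ∀ k : ℕ, ∫ t in ((2 : ℝ) ^ k * T0)..((2 : ℝ) ^ (k + 1) * T0), ff l t ^ 2 ≤ A * q ^ k := by
    intro k
    have h2k : (1 : ℝ) ≤ 2 ^ k := one_le_pow₀ (by norm_num)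
    have h2k0 : (0 : ℝ) < 2 ^ k := by positivity
    have hS : T0 ≤ 2 ^ k * T0 := le_mul_of_one_le_left hT00.le h2k
    have hS1 : 1 ≤ 2 ^ k * T0 := hT0.trans hS
    have hS0 : 0 < (2 : ℝ) ^ k * T0 := by positivity
    have hSS : (2 : ℝ) ^ (k + 1) * T0 = 2 * (2 ^ k * T0) := by rw [pow_succ]; ring
    rw [hSS]
    generalize hSdef : (2 : ℝ) ^ k * T0 = S at *
    have h3 : ∫ t in S..(2 * S), ff l t ^ 2 ≤ ∫ t in S..(2 * S), (90 * S ^ (-η)) * ff l t := by
      refine intervalIntegral.integral_mono_on (by linarith) (hcf.intervalIntegrable _ _)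
        ((continuous_const.mul (continuous_ff h0 h1)).intervalIntegrable _ _) fun t ht => ?_
      rw [sq]
      refine mul_le_mul_of_nonneg_right ?_ (ff_nonneg l t)
      refine (hK t (hS.trans ht.1)).trans (mul_le_mul_of_nonneg_left ?_ (by norm_num))
      exact Real.rpow_le_rpow_of_nonpos hS0 ht.1 (by linarith)
    rw [intervalIntegral.integral_const_mul] at h3
    have h4 : ∫ t in S..(2 * S), ff l t ≤ 40 * S ^ (η / 2) := by
      have h5 := intervalIntegral.integral_add_adjacent_intervals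
        ((continuous_ff h0 h1).intervalIntegrable (μ := volume) 0 S)
        ((continuous_ff h0 h1).intervalIntegrable (μ := volume) S (2 * S))
      have h6 : 0 ≤ ∫ t in (0 : ℝ)..S, ff l t :=
        intervalIntegral.integral_nonneg hS0.le fun t _ => ff_nonneg l t
      have h7 := hL1 (2 * S) (by linarith)
      have h8 : (2 * S) ^ θ ≤ (2 * S) ^ (η / 2) := Real.rpow_le_rpow_of_exponent_le (by linarith) hθ
      have h9 : (2 * S) ^ (η / 2) ≤ 2 * S ^ (η / 2) := by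
        rw [Real.mul_rpow (by norm_num) hS0.le]
        refine mul_le_mul_of_nonneg_right ?_ (Real.rpow_nonneg hS0.le _)
        calc (2 : ℝ) ^ (η / 2) ≤ 2 ^ (1 : ℝ) := Real.rpow_le_rpow_of_exponent_le (by norm_num) (by linarith)
          _ = 2 := Real.rpow_one _
      linarith
    refine h3.trans ((mul_le_mul_of_nonneg_left h4 (by positivity)).trans (le_of_eq ?_))
    have e1 : S ^ (-η) * S ^ (η / 2) = S ^ (-(η / 2)) := by
      rw [← Real.rpow_add hS0]
      congr 1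
      ring
    have e2 : S ^ (-(η / 2)) = T0 ^ (-(η / 2)) * q ^ k := by
      rw [← hSdef, Real.mul_rpow h2k0.le hT00.le, hq, mul_comm]
      congr 1
      rw [← Real.rpow_natCast, ← Real.rpow_natCast, ← Real.rpow_mul (by norm_num), ← Real.rpow_mul (by norm_num), mul_comm]
    calc 90 * S ^ (-η) * (40 * S ^ (η / 2)) = 3600 * (S ^ (-η) * S ^ (η / 2)) := by ring
      _ = A * q ^ k := by rw [e1, e2, hA]; ring
  have hsum : ∀ m : ℕ, GG l ((2 : ℝ) ^ m * T0) ≤ 58 + A * ∑ k ∈ Finset.range m, q ^ k := by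
    intro m
    induction m with
    | zero =>
      rw [pow_zero, one_mul, Finset.range_zero, Finset.sum_empty, mul_zero, add_zero]
      exact hG
    | succ m ih =>
      have h5 := intervalIntegral.integral_add_adjacent_intervals
        (hcf.intervalIntegrable (μ := volume) 0 ((2 : ℝ) ^ m * T0))
        (hcf.intervalIntegrable (μ := volume) ((2 : ℝ) ^ m * T0) ((2 : ℝ) ^ (m + 1) * T0))
      have h6 := hstep m
      rw [Finset.sum_range_succ, mul_add]
      unfold GG at ih ⊢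
      linarith
  obtain ⟨m, hm⟩ := pow_unbounded_of_one_lt T (show (1 : ℝ) < 2 by norm_num)
  have hm' : T ≤ 2 ^ m * T0 := hm.le.trans (le_mul_of_one_le_right (by positivity) hT0)
  refine (GG_mono h0 h1 hm').trans ((hsum m).trans ?_)
  have h7 : ∑ k ∈ Finset.range m, q ^ k ≤ (1 - q)⁻¹ := by
    rw [← tsum_geometric_of_lt_one hq0.le hq1]
    exact (summable_geometric_of_lt_one hq0.le hq1).sum_le_tsum _ fun _ _ => by positivity
  have h8 := mul_le_mul_of_nonneg_left h7 hA0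
  linarith

/-- the density -/
theorem dens {l : ℝ} (h0 : 0 ≤ l) (h1 : l < 1) (h : ∀ T : ℝ, GG l T ≤ 59) :
    ∃ g : ℝ → ℝ, MemLp g 2 volume ∧ ∫ x, g x ^ 2 ≤ 236 ∧ nu l = volume.withDensity fun x => ENNReal.ofReal (g x) := by
  have hp := nu_prob h0 h1
  refine ac_bound (C := 236) (by norm_num) fun r hr _ => ?_
  have h3 := ess_energy h0 h1 hr
  have h4 := mul_le_mul_of_nonneg_left (h (1 / r)) (show 0 ≤ 4 * r by positivity)
  unfold GG at h4
  linarith

end Pool.Agent.H76.NE
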