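import Pool.Agent.H76.NE.Lev2
import Pool.Agent.H76.NE.Uni

/-!
# The exceptional parameters near `1/√2`
-/

set_option autoImplicit false

namespace Pool.Agent.H76.NE

open MeasureTheory Set Filter Topology Pool.Agent.H76.ND

theorem main : ∃ C : ℝ, 0 < C ∧ ∀ ε D : ℝ, 0 < ε → ε ≤ C⁻¹ → D = ε * Real.log ε ^ 2 →
    ∃ (ι : Type) (_ : Countable ι) (c r : ι → ℝ), (∀ i, 0 < r i) ∧
      (∀ s : ℝ, C * D * Real.log D⁻¹ ≤ s → s ≤ 1 →
        ∑' i, ENNReal.ofReal (r i ^ s) ≤ ENNReal.ofReal (Real.exp (-(s / (C * D ^ 3))))) ∧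
      ∀ l : ℝ, |l - 1 / Real.sqrt 2| ≤ ε → (∀ i, r i < |l - c i|) → IsProbabilityMeasure (nu l) ∧
        ∃ g : ℝ → ℝ, MemLp g 2 volume ∧ ∫ x, g x ^ 2 ≤ 236 ∧ nu l = volume.withDensity fun x => ENNReal.ofReal (g x) := by
  obtain ⟨he0, he1⟩ := ee_bounds
  set κ0 : ℝ := Real.log qq⁻¹ / Real.log (10 / 7) with hκ0
  set Ds : ℝ := κ0 / (2 * 10 ^ 14) with hDs
  have hDs0 : 0 < Ds := by positivity
  have hDs1 : Ds ≤ 1 / 10 ^ 14 := by
    rw [hDs, div_le_div_iff₀ (by norm_num) (by norm_num)]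
    linarith
  set C : ℝ := (16 / Ds) ^ 2 + 108 * 10 ^ 14 / κ0 + 10 ^ 15 with hC
  have hc1 : 0 ≤ (16 / Ds) ^ 2 := sq_nonneg _
  have hc2 : 0 < 108 * 10 ^ 14 / κ0 := by positivity
  have hC1 : (10 : ℝ) ^ 15 ≤ C := by rw [hC]; linarith
  have hC2 : (16 / Ds) ^ 2 ≤ C := by
    rw [hC]
    linarith [show (0 : ℝ) < 10 ^ 15 by norm_num]
  have hC3 : 108 * 10 ^ 14 / κ0 ≤ C := by
    rw [hC]
    linarith [show (0 : ℝ) < 10 ^ 15 by norm_num]
  have hC0 : 0 < C := lt_of_lt_of_le (by norm_num) hC1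
  refine ⟨C, hC0, fun ε D hε hεC hD => ?_⟩
  have hε14 : ε ≤ (10 ^ 14)⁻¹ := hεC.trans (inv_anti₀ (by norm_num) (by linarith))
  obtain ⟨hD0, hD1, _⟩ := fin_D hε hε14
  rw [← hD] at hD0 hD1
  -- `D ≤ Ds`
  have hDDs : D ≤ Ds := by
    have h1 : ε ≤ (Ds / 16) ^ 2 := by
      refine hεC.trans ?_
      rw [inv_le_comm₀ hC0 (by positivity)]
      refine le_trans (le_of_eq ?_) hC2
      field_simp
    have h2 : Real.sqrt ε ≤ Ds / 16 := Real.sqrt_le_iff.2 ⟨by positivity, h1⟩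
    rcases D_le hε with h3 | h3
    · rw [hD]
      linarith
    · exfalso
      have : ((10 : ℝ) ^ 14)⁻¹ ≤ 1 := by norm_num
      linarith
  have hD14 : D ≤ 1 / 10 ^ 14 := hDDs.trans hDs1
  have hDi : 10 ^ 14 ≤ D⁻¹ := by
    rw [le_inv_comm₀ (by norm_num) hD0]
    rwa [one_div] at hD14
  have hlogD : 1 ≤ Real.log D⁻¹ := by
    rw [Real.le_log_iff_exp_le (by positivity)]
    refine le_trans ?_ hDi
    linarith [Real.exp_one_lt_d9, show (3 : ℝ) ≤ 10 ^ 14 by norm_num]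
  set c : ℝ := 2 * 10 ^ 14 * D / κ0 with hc
  have hc0 : 0 < c := by positivity
  have hcle : c ≤ 1 := by
    rw [hc, div_le_one he0]
    rw [hDs, le_div_iff₀ (by norm_num)] at hDDs
    linarith
  have hee : ee c = 2 * 10 ^ 14 * D := by
    unfold ee
    rw [hc, ← hκ0]
    field_simp
  set u : ℝ := 1 / D ^ 3 with hu
  have hu0 : 0 < u := by positivity
  set w : ℝ := u / 10 ^ 14 with hw
  have hDsq : D ^ 2 ≤ 1 / 10 ^ 28 := by
    calc D ^ 2 ≤ (1 / 10 ^ 14) ^ 2 := pow_le_pow_left₀ hD0.le hD14 2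
      _ = 1 / 10 ^ 28 := by norm_num
  have hw1 : 100 ≤ w := by
    rw [hw, hu, div_div, le_div_iff₀ (by positivity)]
    have h1 : D ^ 3 ≤ 1 / 10 ^ 28 := by
      calc D ^ 3 = D ^ 2 * D := by ring
        _ ≤ 1 / 10 ^ 28 * 1 := mul_le_mul hDsq (by linarith) hD0.le (by norm_num)
        _ = 1 / 10 ^ 28 := by ring
    nlinarith
  set T0 : ℝ := Real.exp w with hT0
  have hT0100 : 100 ≤ T0 := by
    have := Real.add_one_le_exp w
    linarith
  have hT01 : 1 ≤ T0 := by linarith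
  -- `exp (-1/D²) ≤ D²`
  have hexp : Real.exp (-(1 / D ^ 2)) ≤ D ^ 2 := by
    rw [Real.exp_neg, inv_le_comm₀ (Real.exp_pos _) (by positivity)]
    have := Real.add_one_le_exp (1 / D ^ 2)
    rw [← one_div]
    linarith
  have hp0 : 0 < 20 * Real.pi := by positivity
  have hp1 : 20 * Real.pi ≤ 63 := by linarith [Real.pi_lt_d2]
  -- the number of the first level
  obtain ⟨N0, hNa, hNb⟩ := exists_nat_pow_near (x := T0 / (20 * Real.pi)) (y := 10 / 7)
    (by rw [one_le_div hp0]; linarith) (by norm_num)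
  have hN0 : 1 ≤ N0 := by
    by_contra h
    have h0 : N0 = 0 := by omega
    rw [h0, zero_add, pow_one, div_lt_iff₀ hp0] at hNb
    linarith
  have hN90 : Real.exp w / 90 ≤ (10 / 7 : ℝ) ^ N0 := by
    rw [pow_succ, div_lt_iff₀ hp0] at hNb
    have e1 : (0 : ℝ) < (10 / 7) ^ N0 := by positivity
    rw [div_le_iff₀ (by norm_num)]
    have h3 : (10 / 7 : ℝ) ^ N0 * (10 / 7) * (20 * Real.pi) ≤ (10 / 7 : ℝ) ^ N0 * (10 / 7) * 63 :=
      mul_le_mul_of_nonneg_left hp1 (by positivity)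
    linarith
  refine ⟨Idx c N0, countable_Idx c N0, fun i => cen (N0 + i.1) i.2.1, fun i => (5 / 7 : ℝ) ^ (N0 + i.1),
    fun i => by positivity, fun s hs1 hs2 => ?_, ?_⟩
  · -- the content
    obtain ⟨hl1, hl2⟩ := log75
    have hsD : D ≤ s := by
      refine le_trans ?_ hs1
      have h1 : 1 ≤ C * Real.log D⁻¹ := by nlinarith [show (1 : ℝ) ≤ 10 ^ 15 by norm_num]
      nlinarith
    have hs0 : 0 < s := by linarith
    have hcs : 3 * c * Real.log (18 / (s * Real.log (7 / 5))) ≤ s / 3 * Real.log (7 / 5) := by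
      have h1 : Real.log (18 / (s * Real.log (7 / 5))) ≤ 2 * Real.log D⁻¹ := by
        have e1 : 2 * Real.log D⁻¹ = Real.log (D⁻¹ ^ 2) := by
          rw [Real.log_pow]
          norm_num
        rw [e1]
        refine Real.log_le_log (by positivity) ?_
        have h2 : D / 3 ≤ s * Real.log (7 / 5) := by nlinarith
        calc 18 / (s * Real.log (7 / 5)) ≤ 18 / (D / 3) := div_le_div_of_nonneg_left (by norm_num) (by positivity) h2
          _ = 54 * D⁻¹ := by field_simp; norm_num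
          _ ≤ D⁻¹ * D⁻¹ := mul_le_mul_of_nonneg_right (by linarith [show (54 : ℝ) ≤ 10 ^ 14 by norm_num]) (by positivity)
          _ = D⁻¹ ^ 2 := by ring
      have h2 : 3 * c * Real.log (18 / (s * Real.log (7 / 5))) ≤ 3 * c * (2 * Real.log D⁻¹) :=
        mul_le_mul_of_nonneg_left h1 (by positivity)
      have h3 : 3 * c * (2 * Real.log D⁻¹) = (108 * 10 ^ 14 / κ0) * D * Real.log D⁻¹ / 9 := by
        rw [hc]
        ring
      have h4 : (108 * 10 ^ 14 / κ0) * D * Real.log D⁻¹ ≤ C * D * Real.log D⁻¹ :=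
        mul_le_mul_of_nonneg_right (mul_le_mul_of_nonneg_right hC3 hD0.le) (by linarith)
      nlinarith
    refine (content2 hs0 hs2 hc0.le hcs hN90).trans (ENNReal.ofReal_le_ofReal ?_)
    -- `(10^7 / s) exp (-s w / 4) ≤ exp (-s u / C)`
    have hsu : 10 ^ 15 / D ^ 2 ≤ s * u := by
      have h1 : C * D * 1 ≤ s := (mul_le_mul_of_nonneg_left hlogD (by positivity)).trans hs1
      have h2 : 10 ^ 15 * D ≤ s := by nlinarith
      rw [hu, mul_one_div, div_le_div_iff₀ (by positivity) (by positivity)]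
      calc 10 ^ 15 * D ^ 3 = (10 ^ 15 * D) * D ^ 2 := by ring
        _ ≤ s * D ^ 2 := mul_le_mul_of_nonneg_right h2 (by positivity)
    have h5 : Real.exp (-(s * w / 4)) = Real.exp (-(s * u / (8 * 10 ^ 14))) * Real.exp (-(s * u / (8 * 10 ^ 14))) := by
      rw [← Real.exp_add, hw]
      congr 1
      ring
    have h6 : Real.exp (-(s * u / (8 * 10 ^ 14))) ≤ D ^ 2 := by
      refine le_trans ?_ hexp
      rw [Real.exp_le_exp]
      have h7 : 1 / D ^ 2 ≤ s * u / (8 * 10 ^ 14) := by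
        rw [le_div_iff₀ (by norm_num)]
        refine le_trans ?_ hsu
        rw [div_mul_eq_mul_div]
        exact div_le_div_of_nonneg_right (by norm_num) (by positivity)
      linarith
    have h7 : 10 ^ 7 / s * D ^ 2 ≤ 1 := by
      rw [div_mul_eq_mul_div, div_le_one hs0]
      nlinarith
    have h8 : Real.exp (-(s * u / (8 * 10 ^ 14))) ≤ Real.exp (-(s / (C * D ^ 3))) := by
      rw [Real.exp_le_exp]
      have h9 : s / (C * D ^ 3) = s * u / C := by
        rw [hu]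
        field_simp
      rw [h9]
      have h10 : s * u / C ≤ s * u / (8 * 10 ^ 14) :=
        div_le_div_of_nonneg_left (by positivity) (by norm_num) (by linarith)
      linarith
    rw [h5]
    calc 10 ^ 7 / s * (Real.exp (-(s * u / (8 * 10 ^ 14))) * Real.exp (-(s * u / (8 * 10 ^ 14))))
        = (10 ^ 7 / s * Real.exp (-(s * u / (8 * 10 ^ 14)))) * Real.exp (-(s * u / (8 * 10 ^ 14))) := by ring
      _ ≤ (10 ^ 7 / s * D ^ 2) * Real.exp (-(s * u / (8 * 10 ^ 14))) :=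
          mul_le_mul_of_nonneg_right (mul_le_mul_of_nonneg_left h6 (by positivity)) (Real.exp_nonneg _)
      _ ≤ 1 * Real.exp (-(s * u / (8 * 10 ^ 14))) := mul_le_mul_of_nonneg_right h7 (Real.exp_nonneg _)
      _ ≤ Real.exp (-(s / (C * D ^ 3))) := by rw [one_mul]; exact h8
  · intro l hl hout
    obtain ⟨hl0, hl1⟩ := fin_one (hl.trans hε14)
    have hs2 : (1 / Real.sqrt 2) ^ 2 = 1 / 2 := by
      rw [div_pow, Real.sq_sqrt (by norm_num), one_pow]
    have hs0 : 0 < 1 / Real.sqrt 2 := by positivity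
    have hsa : 707 / 1000 ≤ 1 / Real.sqrt 2 := by nlinarith
    have hsb : 1 / Real.sqrt 2 ≤ 708 / 1000 := by nlinarith
    have hla := abs_le.1 (hl.trans hε14)
    have h14 : ((10 : ℝ) ^ 14)⁻¹ ≤ 1 / 1000 := by norm_num
    have hT0N : 20 * Real.pi * (10 / 7) ^ N0 ≤ T0 := by
      rw [le_div_iff₀ hp0] at hNa
      linarith
    have hdec : ∀ t : ℝ, T0 ≤ t → ff l t ≤ 90 * t ^ (-(2 * 10 ^ 14 * D)) := fun t ht => by
      rw [← hee]
      exact decay_all (by linarith) (by linarith) hc0.le hcle hN0 hout (hT0N.trans ht)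
    have hG : GG l T0 ≤ 58 := by
      have h1 := (win_bounds hε hε14 hl hT01).1
      rw [← hD] at h1
      have h2 : T0 ^ (10 ^ 14 * D ^ 3) = Real.exp 1 := by
        rw [hT0, ← Real.exp_mul]
        congr 1
        rw [hw, hu]
        field_simp
      rw [h2] at h1
      linarith [Real.exp_one_lt_d9]
    -- the smallness condition
    have hz : 2 * 10 ^ 14 * D / 2 = 10 ^ 14 * D := by ring
    have hz1 : 10 ^ 14 * D ≤ 1 / 2 := by
      rw [hDs, le_div_iff₀ (by norm_num)] at hDDs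
      linarith
    have hsm : 3600 * T0 ^ (-(2 * 10 ^ 14 * D / 2)) * (1 - (2 : ℝ) ^ (-(2 * 10 ^ 14 * D / 2)))⁻¹ ≤ 1 := by
      rw [hz]
      have h1 : T0 ^ (-(10 ^ 14 * D)) ≤ D ^ 2 := by
        refine le_trans (le_of_eq ?_) hexp
        rw [hT0, ← Real.exp_mul]
        congr 1
        rw [hw, hu]
        field_simp
      have h2 : 10 ^ 14 * D / 3 ≤ 1 - (2 : ℝ) ^ (-(10 ^ 14 * D)) := by
        have hlog2 := Real.log_two_gt_d9
        have hlog2' := Real.log_two_lt_d9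
        have h3 := one_sub_exp (a := 10 ^ 14 * D * Real.log 2) (by positivity) (by nlinarith)
        have e1 : (2 : ℝ) ^ (-(10 ^ 14 * D)) = Real.exp (-(10 ^ 14 * D * Real.log 2)) := by
          rw [Real.rpow_def_of_pos (by norm_num)]
          congr 1
          ring
        rw [e1]
        nlinarith
      have h3 : 0 < 10 ^ 14 * D / 3 := by positivity
      calc 3600 * T0 ^ (-(10 ^ 14 * D)) * (1 - (2 : ℝ) ^ (-(10 ^ 14 * D)))⁻¹
          ≤ 3600 * D ^ 2 * (10 ^ 14 * D / 3)⁻¹ := by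
            refine mul_le_mul (mul_le_mul_of_nonneg_left h1 (by norm_num)) (inv_anti₀ h3 h2) ?_ (by positivity)
            exact inv_nonneg.2 (h3.le.trans h2)
        _ = 10800 / 10 ^ 14 * D := by field_simp; norm_num
        _ ≤ 1 := by linarith
    refine ⟨nu_prob hl0.le hl1, dens hl0.le hl1 fun T => ?_⟩
    refine uni hl0.le hl1 (θ := 10 ^ 14 * D) (η := 2 * 10 ^ 14 * D) hT01 (by positivity) (by linarith) (by linarith)
      (fun T hT => ?_) hG hdec hsm T
    have h1 := (win_bounds hε hε14 hl hT).2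
    rwa [← hD] at h1

end Pool.Agent.H76.NE
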